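import Mathlib

/-!
# Disjointness graphs of pairs: colourings by touching classes

`Tch e f`: the pairs `e` and `f` share a point.  `Col E k`: the set `E` of pairs can be split into
`k` classes of pairwise touching pairs (a `k`-colouring of the disjointness graph of `E`).
-/

set_option autoImplicit false
set_option linter.unusedSectionVars false
set_option linter.unusedVariables false

namespace Pool.Agent.H81.LG

open Finset

variable {V : Type}

/-- two pairs share a point -/
def Tch (e f : Sym2 V) : Prop := ∃ v, v ∈ e ∧ v ∈ f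

theorem Tch.symm {e f : Sym2 V} (h : Tch e f) : Tch f e := by
  obtain ⟨v, a, b⟩ := h
  exact ⟨v, b, a⟩

theorem Tch.refl (e : Sym2 V) : Tch e e := by
  induction e using Sym2.ind with
  | _ x y => exact ⟨x, by simp, by simp⟩

theorem not_tch_ne {e f : Sym2 V} (h : ¬ Tch e f) : e ≠ f := by
  rintro rfl
  exact h (Tch.refl e)

theorem not_tch_symm {e f : Sym2 V} (h : ¬ Tch e f) : ¬ Tch f e := fun h1 => h h1.symm

variable [DecidableEq V]

/-- `E` can be split into at most `k` classes of pairwise touching pairs -/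
def Col (E : Finset (Sym2 V)) (k : ℕ) : Prop :=
  ∃ c : Sym2 V → ℕ, (E.image c).card ≤ k ∧ ∀ e ∈ E, ∀ f ∈ E, c e = c f → Tch e f

theorem col_of {ι : Type} [DecidableEq ι] {E : Finset (Sym2 V)} {k : ℕ} (c : Sym2 V → ι)
    (h1 : (E.image c).card ≤ k) (h2 : ∀ e ∈ E, ∀ f ∈ E, c e = c f → Tch e f) : Col E k := by
  obtain ⟨g, hg⟩ := Set.countable_iff_exists_injOn.1 ((E.image c).countable_toSet)
  refine ⟨g ∘ c, ?_, ?_⟩
  · rw [← Finset.image_image]
    exact Finset.card_image_le.trans h1
  · intro e he f hf hef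
    apply h2 e he f hf
    exact hg (by simpa using ⟨e, he, rfl⟩) (by simpa using ⟨f, hf, rfl⟩) hef

theorem Col.mono {E F : Finset (Sym2 V)} {k l : ℕ} (h : Col E k) (hF : F ⊆ E) (hkl : k ≤ l) :
    Col F l := by
  obtain ⟨c, h1, h2⟩ := h
  exact ⟨c, (Finset.card_le_card (Finset.image_subset_image hF)).trans (h1.trans hkl),
    fun e he f hf => h2 e (hF he) f (hF hf)⟩

theorem Col.union {E F : Finset (Sym2 V)} {k l : ℕ} (h : Col E k) (h' : Col F l) :
    Col (E ∪ F) (k + l) := by
  obtain ⟨c, h1, h2⟩ := h
  obtain ⟨c', h1', h2'⟩ := h'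
  refine ⟨fun e => if e ∈ E then 2 * c e else 2 * c' e + 1, ?_, ?_⟩
  · have : ((E ∪ F).image (fun e => if e ∈ E then 2 * c e else 2 * c' e + 1)) ⊆
        (E.image c).image (fun n => 2 * n) ∪ (F.image c').image (fun n => 2 * n + 1) := by
      intro n hn
      simp only [Finset.mem_image, Finset.mem_union] at hn ⊢
      obtain ⟨e, he, rfl⟩ := hn
      by_cases h3 : e ∈ E
      · left
        exact ⟨c e, ⟨e, h3, rfl⟩, by simp [h3]⟩
      · right
        exact ⟨c' e, ⟨e, he.resolve_left h3, rfl⟩, by simp [h3]⟩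
    refine (Finset.card_le_card this).trans ((Finset.card_union_le _ _).trans ?_)
    exact add_le_add (Finset.card_image_le.trans h1) (Finset.card_image_le.trans h1')
  · intro e he f hf hef
    rw [Finset.mem_union] at he hf
    by_cases h3 : e ∈ E <;> by_cases h4 : f ∈ E
    · simp only [h3, h4, if_true] at hef
      exact h2 e h3 f h4 (by omega)
    · simp only [h3, h4, if_true, if_false] at hef
      omega
    · simp only [h3, h4, if_true, if_false] at hef
      omega
    · simp only [h3, h4, if_false] at hef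
      exact h2' e (he.resolve_left h3) f (hf.resolve_left h4) (by omega)

theorem col_one {E : Finset (Sym2 V)} (h : ∀ e ∈ E, ∀ f ∈ E, Tch e f) : Col E 1 := by
  refine ⟨fun _ => 0, ?_, fun e he f hf _ => h e he f hf⟩
  refine Finset.card_le_one.2 ?_
  intro a ha b hb
  simp only [Finset.mem_image] at ha hb
  obtain ⟨_, _, rfl⟩ := ha
  obtain ⟨_, _, rfl⟩ := hb
  rfl

theorem col_zero_iff {E : Finset (Sym2 V)} : Col E 0 ↔ E = ∅ := by
  constructor
  · rintro ⟨c, h1, _⟩
    have : E.image c = ∅ := Finset.card_eq_zero.1 (by omega)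
    exact Finset.image_eq_empty.1 this
  · rintro rfl
    exact ⟨fun _ => 0, by simp, by simp⟩

theorem col_card (E : Finset (Sym2 V)) : Col E E.card :=
  col_of (fun e => e) Finset.card_image_le (by rintro e _ f _ rfl; exact Tch.refl e)

/-- cover by a list of touching classes -/
theorem col_cover {E : Finset (Sym2 V)} (L : List (Sym2 V → Prop))
    (h1 : ∀ P ∈ L, ∀ e ∈ E, ∀ f ∈ E, P e → P f → Tch e f)
    (h2 : ∀ e ∈ E, ∃ P ∈ L, P e) : Col E L.length := by
  classical
  induction L generalizing E with
  | nil =>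
    have : E = ∅ := by
      apply Finset.eq_empty_of_forall_notMem
      intro e he
      obtain ⟨P, hP, _⟩ := h2 e he
      simp at hP
    rw [this]
    exact col_zero_iff.2 rfl
  | cons P L ih =>
    have hA : Col (E.filter P) 1 := col_one (by
      intro e he f hf
      rw [Finset.mem_filter] at he hf
      exact h1 P (by simp) e he.1 f hf.1 he.2 hf.2)
    have hB : Col (E.filter (fun e => ¬ P e)) L.length := by
      apply ih
      · intro Q hQ e he f hf
        rw [Finset.mem_filter] at he hf
        exact h1 Q (by simp [hQ]) e he.1 f hf.1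
      · intro e he
        rw [Finset.mem_filter] at he
        obtain ⟨Q, hQ, hQe⟩ := h2 e he.1
        rcases List.mem_cons.1 hQ with rfl | hQ
        · exact absurd hQe he.2
        · exact ⟨Q, hQ, hQe⟩
    have := hA.union hB
    rw [Finset.filter_union_filter_not_eq] at this
    refine this.mono (Finset.Subset.refl _) ?_
    simp
    omega

/-- splitting a colouring into two parts with different colours -/
theorem col_split {E X Y : Finset (Sym2 V)} {k : ℕ} (c : Sym2 V → ℕ)
    (h1 : (E.image c).card ≤ k) (h2 : ∀ e ∈ E, ∀ f ∈ E, c e = c f → Tch e f)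
    (hX : X ⊆ E) (hY : Y ⊆ E) (h3 : ∀ e ∈ X, ∀ f ∈ Y, c e ≠ c f) :
    ∃ p q, p + q ≤ k ∧ Col X p ∧ Col Y q := by
  refine ⟨(X.image c).card, (Y.image c).card, ?_, ⟨c, le_refl _, ?_⟩, ⟨c, le_refl _, ?_⟩⟩
  · have hd : Disjoint (X.image c) (Y.image c) := by
      rw [Finset.disjoint_left]
      intro n hn hn'
      simp only [Finset.mem_image] at hn hn'
      obtain ⟨e, he, rfl⟩ := hn
      obtain ⟨f, hf, h⟩ := hn'
      exact h3 e he f hf h.symm
    rw [← Finset.card_union_of_disjoint hd]
    refine (Finset.card_le_card ?_).trans h1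
    exact Finset.union_subset (Finset.image_subset_image hX) (Finset.image_subset_image hY)
  · exact fun e he f hf => h2 e (hX he) f (hX hf)
  · exact fun e he f hf => h2 e (hY he) f (hY hf)

/-- extending a colouring to one more pair -/
theorem col_extend {E : Finset (Sym2 V)} {k : ℕ} {u : Sym2 V} {c : Sym2 V → ℕ} {i : ℕ}
    (h1 : ((E.erase u).image c).card ≤ k)
    (h2 : ∀ e ∈ E.erase u, ∀ f ∈ E.erase u, c e = c f → Tch e f)
    (hi : i ∈ (E.erase u).image c)
    (h3 : ∀ f ∈ E.erase u, c f = i → Tch u f) : Col E k := by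
  refine ⟨fun e => if e = u then i else c e, ?_, ?_⟩
  · refine (Finset.card_le_card ?_).trans h1
    intro n hn
    simp only [Finset.mem_image] at hn
    obtain ⟨e, he, rfl⟩ := hn
    by_cases h : e = u
    · simpa [h] using hi
    · simp only [h, if_false, Finset.mem_image]
      exact ⟨e, Finset.mem_erase.2 ⟨h, he⟩, rfl⟩
  · intro e he f hf hef
    by_cases h : e = u <;> by_cases h' : f = u
    · rw [h, h']
      exact Tch.refl u
    · subst h
      simp only [if_true, h', if_false] at hef
      exact h3 f (Finset.mem_erase.2 ⟨h', hf⟩) hef.symm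
    · subst h'
      simp only [if_true, h, if_false] at hef
      exact (h3 e (Finset.mem_erase.2 ⟨h, he⟩) hef).symm
    · simp only [h, h', if_false] at hef
      exact h2 e (Finset.mem_erase.2 ⟨h, he⟩) f (Finset.mem_erase.2 ⟨h', hf⟩) hef

/-- extending a colouring with a new colour -/
theorem col_extend_new {E : Finset (Sym2 V)} {k : ℕ} {u : Sym2 V}
    (h : Col (E.erase u) k) : Col E (k + 1) := by
  have h1 : Col {u} 1 := col_one (by
    intro e he f hf
    rw [Finset.mem_singleton] at he hf
    rw [he, hf]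
    exact Tch.refl u)
  refine (h.union h1).mono ?_ (le_refl _)
  intro e he
  by_cases h : e = u
  · simp [h]
  · simp [h, he]

/-- `E` is critical: not `k`-colourable, but it is after deletion of any pair -/
structure Crit (E : Finset (Sym2 V)) (k : ℕ) : Prop where
  ncol : ¬ Col E k
  col : ∀ e ∈ E, Col (E.erase e) k

/-- the non-neighbourhood statement: no vertex is dominated -/
theorem Crit.not_dom {E : Finset (Sym2 V)} {k : ℕ} (h : Crit E k) {u w : Sym2 V} (hu : u ∈ E)
    (hw : w ∈ E) (huw : u ≠ w) (ht : Tch u w) : ∃ n ∈ E, ¬ Tch u n ∧ Tch w n := by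
  by_contra hcon
  push Not at hcon
  obtain ⟨c, h1, h2⟩ := h.col u hu
  apply h.ncol
  have hw' : w ∈ E.erase u := Finset.mem_erase.2 ⟨huw.symm, hw⟩
  refine col_extend h1 h2 (i := c w) (Finset.mem_image.2 ⟨w, hw', rfl⟩) ?_
  intro f hf hfw
  by_contra hn
  exact hcon f (Finset.mem_of_mem_erase hf) hn (h2 f hf w hw' hfw).symm

/-- in a critical family every pair is disjoint from at least `k` others -/
theorem Crit.deg {E : Finset (Sym2 V)} {k : ℕ} (h : Crit E k) {u : Sym2 V} (hu : u ∈ E)
    (N : Finset (Sym2 V)) (hN : ∀ n ∈ E, ¬ Tch u n → n ∈ N) : k ≤ N.card := by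
  obtain ⟨c, h1, h2⟩ := h.col u hu
  by_contra hlt
  push Not at hlt
  have h3 : ∀ i ∈ (E.erase u).image c, ∃ n ∈ E, ¬ Tch u n ∧ c n = i := by
    intro i hi
    by_contra hcon
    push Not at hcon
    apply h.ncol
    refine col_extend h1 h2 hi ?_
    intro f hf hfi
    by_contra hn
    exact hcon f (Finset.mem_of_mem_erase hf) hn hfi
  have h4 : (E.erase u).image c ⊆ N.image c := by
    intro i hi
    obtain ⟨n, hn, hun, hni⟩ := h3 i hi
    exact Finset.mem_image.2 ⟨n, hN n hn hun, hni⟩
  have h5 : ((E.erase u).image c).card ≤ k - 1 := by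
    have := (Finset.card_le_card h4).trans Finset.card_image_le
    omega
  have h6 : Col (E.erase u) (k - 1) := ⟨c, h5, h2⟩
  have h7 := col_extend_new h6
  exact h.ncol (h7.mono (Finset.Subset.refl _) (by omega))

end Pool.Agent.H81.LG
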