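import Pool.Agent.H81.LG.Basic

/-!
# No bridges in a critical family
-/

set_option autoImplicit false
set_option linter.unusedSectionVars false
set_option linter.unusedVariables false

namespace Pool.Agent.H81.LG

open Finset

variable {V : Type} [DecidableEq V]

/-- if `x` is a point of `e` only, then no other pair contains `v` -/
theorem Crit.pendant {E : Finset (Sym2 V)} {k : ℕ} (h : Crit E k) {v x : V}
    (he : s(v, x) ∈ E) (hx : ∀ f ∈ E, x ∈ f → f = s(v, x)) {e' : Sym2 V} (he' : e' ∈ E)
    (hne : e' ≠ s(v, x)) (hv : v ∈ e') : False := by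
  obtain ⟨n, hn, h1, h2⟩ := h.not_dom he' he hne ⟨v, hv, by simp⟩
  obtain ⟨w, hw, hwn⟩ := h2
  rcases Sym2.mem_iff.1 hw with rfl | rfl
  · exact h1 ⟨w, hv, hwn⟩
  · have := hx n hn hwn
    subst this
    exact h1 ⟨v, hv, by simp⟩

/-- the bridge lemma -/
theorem Crit.bridge {E : Finset (Sym2 V)} {k : ℕ} (h : Crit E k) {v x : V} (hvx : v ≠ x)
    (he : s(v, x) ∈ E) (D R : Finset (Sym2 V)) (hE : E = insert s(v, x) (D ∪ R))
    (heD : s(v, x) ∉ D) (heR : s(v, x) ∉ R)
    (hDR : ∀ f ∈ D, ∀ g ∈ R, ¬ Tch f g) (hD : ∀ f ∈ D, v ∉ f) (hR : ∀ g ∈ R, x ∉ g)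
    {e' : Sym2 V} (he' : e' ∈ R) (hv : v ∈ e') : False := by
  have hDE : D ⊆ E := by rw [hE]; intro f hf; simp [hf]
  have hRE : R ⊆ E := by rw [hE]; intro f hf; simp [hf]
  have hne' : e' ≠ s(v, x) := fun h0 => heR (h0 ▸ he')
  by_cases hpx : ∃ e'' ∈ D, x ∈ e''
  swap
  · push Not at hpx
    refine h.pendant he ?_ (hRE he') hne' hv
    intro f hf hxf
    rw [hE, Finset.mem_insert, Finset.mem_union] at hf
    rcases hf with hf | hf | hf
    · exact hf
    · exact absurd hxf (hpx f hf)
    · exact absurd hxf (hR f hf)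
  obtain ⟨e'', he'', hxe''⟩ := hpx
  have hne'' : e'' ≠ s(v, x) := fun h0 => heD (h0 ▸ he'')
  -- colouring of `E - e'`
  have hA : ∃ p q, p + q ≤ k ∧ Col (insert s(v, x) D) p ∧ Col (R.erase e') q := by
    obtain ⟨c, h1, h2⟩ := h.col e' (hRE he')
    have hX : insert s(v, x) D ⊆ E.erase e' := by
      intro f hf
      rw [Finset.mem_insert] at hf
      rcases hf with rfl | hf
      · exact Finset.mem_erase.2 ⟨hne'.symm, he⟩
      · refine Finset.mem_erase.2 ⟨?_, hDE hf⟩
        rintro rfl
        exact hDR f hf f he' (Tch.refl f)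
    have hY : R.erase e' ⊆ E.erase e' := Finset.erase_subset_erase _ hRE
    have heE' : s(v, x) ∈ E.erase e' := hX (Finset.mem_insert_self _ _)
    refine col_split c h1 h2 hX hY ?_
    intro f hf g hg hfg
    rw [Finset.mem_insert] at hf
    rcases hf with rfl | hf
    · -- the class of `e` contains `g ∈ R`, so nothing from `D`
      apply h.ncol
      refine col_extend h1 h2 (i := c s(v, x)) (Finset.mem_image.2 ⟨_, heE', rfl⟩) ?_
      intro j hj hjc
      have hj' := Finset.mem_of_mem_erase hj
      rw [hE, Finset.mem_insert, Finset.mem_union] at hj'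
      rcases hj' with rfl | hj' | hj'
      · exact ⟨v, hv, by simp⟩
      · exact absurd (h2 j hj g (hY hg) (hjc.trans hfg)) (hDR j hj' g (Finset.mem_of_mem_erase hg))
      · obtain ⟨w, hw1, hw2⟩ := h2 j hj _ heE' hjc
        rcases Sym2.mem_iff.1 hw2 with rfl | rfl
        · exact ⟨w, hv, hw1⟩
        · exact absurd hw1 (hR j hj')
    · exact hDR f hf g (Finset.mem_of_mem_erase hg) (h2 f (hX (Finset.mem_insert_of_mem hf)) g
        (hY hg) hfg)
  have hB : ∃ p q, p + q ≤ k ∧ Col (D.erase e'') p ∧ Col (insert s(v, x) R) q := by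
    obtain ⟨c, h1, h2⟩ := h.col e'' (hDE he'')
    have hY : insert s(v, x) R ⊆ E.erase e'' := by
      intro f hf
      rw [Finset.mem_insert] at hf
      rcases hf with rfl | hf
      · exact Finset.mem_erase.2 ⟨hne''.symm, he⟩
      · refine Finset.mem_erase.2 ⟨?_, hRE hf⟩
        rintro rfl
        exact hDR f he'' f hf (Tch.refl f)
    have hX : D.erase e'' ⊆ E.erase e'' := Finset.erase_subset_erase _ hDE
    have heE' : s(v, x) ∈ E.erase e'' := hY (Finset.mem_insert_self _ _)
    refine col_split c h1 h2 hX hY ?_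
    intro f hf g hg hfg
    rw [Finset.mem_insert] at hg
    rcases hg with rfl | hg
    · apply h.ncol
      refine col_extend h1 h2 (i := c s(v, x)) (Finset.mem_image.2 ⟨_, heE', rfl⟩) ?_
      intro j hj hjc
      have hj' := Finset.mem_of_mem_erase hj
      rw [hE, Finset.mem_insert, Finset.mem_union] at hj'
      rcases hj' with rfl | hj' | hj'
      · exact ⟨x, hxe'', by simp⟩
      · obtain ⟨w, hw1, hw2⟩ := h2 j hj _ heE' hjc
        rcases Sym2.mem_iff.1 hw2 with rfl | rfl
        · exact absurd hw1 (hD j hj')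
        · exact ⟨w, hxe'', hw1⟩
      · exact absurd (h2 f (hX hf) j hj (hfg.trans hjc.symm))
          (hDR f (Finset.mem_of_mem_erase hf) j hj')
    · exact hDR f (Finset.mem_of_mem_erase hf) g hg (h2 f (hX hf) g
        (hY (Finset.mem_insert_of_mem hg)) hfg)
  have hC : ∃ p q, p + q ≤ k ∧ Col D p ∧ Col R q := by
    obtain ⟨c, h1, h2⟩ := h.col _ he
    have hX : D ⊆ E.erase s(v, x) := fun f hf => Finset.mem_erase.2 ⟨fun h0 => heD (h0 ▸ hf), hDE hf⟩
    have hY : R ⊆ E.erase s(v, x) := fun f hf => Finset.mem_erase.2 ⟨fun h0 => heR (h0 ▸ hf), hRE hf⟩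
    refine col_split c h1 h2 hX hY ?_
    intro f hf g hg hfg
    exact hDR f hf g hg (h2 f (hX hf) g (hY hg) hfg)
  obtain ⟨p, q, hpq, hp, hq⟩ := hA
  obtain ⟨p', q', hpq', hp', hq'⟩ := hB
  obtain ⟨d, r, hdr, hd, hr⟩ := hC
  have e1 : k < p + r := by
    by_contra hlt
    push Not at hlt
    refine h.ncol ((hp.union hr).mono ?_ hlt)
    rw [hE]
    intro f
    simp only [Finset.mem_insert, Finset.mem_union]
    tauto
  have e2 : k < q' + d := by
    by_contra hlt
    push Not at hlt
    refine h.ncol ((hq'.union hd).mono ?_ hlt)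
    rw [hE]
    intro f
    simp only [Finset.mem_insert, Finset.mem_union]
    tauto
  have e3 : k < p' + q + 2 := by
    by_contra hlt
    push Not at hlt
    have h1 : Col {s(v, x), e'} 1 := col_one (by
      intro f hf g hg
      refine ⟨v, ?_, ?_⟩
      · simp only [Finset.mem_insert, Finset.mem_singleton] at hf
        rcases hf with rfl | rfl
        · simp
        · exact hv
      · simp only [Finset.mem_insert, Finset.mem_singleton] at hg
        rcases hg with rfl | rfl
        · simp
        · exact hv)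
    have h2 : Col {e''} 1 := col_one (by
      intro f hf g hg
      rw [Finset.mem_singleton] at hf hg
      rw [hf, hg]
      exact Tch.refl _)
    refine h.ncol (((hp'.union hq).union (h1.union h2)).mono ?_ hlt)
    rw [hE]
    intro f
    simp only [Finset.mem_insert, Finset.mem_union, Finset.mem_erase, Finset.mem_singleton]
    tauto
  omega

end Pool.Agent.H81.LG
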