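import Pool.Agent.H81.LG.Swap

/-!
# Two pairs with the same span: the local structure of an optimal matching
-/

set_option autoImplicit false
set_option linter.unusedSectionVars false
set_option linter.unusedVariables false
set_option linter.unusedSimpArgs false

namespace Pool.Agent.H81.LG

open Finset

variable {V : Type} [DecidableEq V]
variable {E : Finset (Sym2 V)} {k : ℕ} {M : Finset (Finset (Sym2 V))} {a b c d x y : V}

theorem tch_mk {a b c d : V} : Tch s(a, b) s(c, d) ↔ a = c ∨ a = d ∨ b = c ∨ b = d := by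
  constructor
  · rintro ⟨v, h1, h2⟩
    rw [Sym2.mem_iff] at h1 h2
    rcases h1 with rfl | rfl <;> rcases h2 with rfl | rfl <;> simp
  · rintro (rfl | rfl | rfl | rfl)
    · exact ⟨a, by simp, by simp⟩
    · exact ⟨a, by simp, by simp⟩
    · exact ⟨b, by simp, by simp⟩
    · exact ⟨b, by simp, by simp⟩

/-- the pairs `{ab, cd}` and `{bc, da}` both belong to `M` -/
structure Cyc (M : Finset (Finset (Sym2 V))) (a b c d : V) : Prop where
  ab : a ≠ b
  ac : a ≠ c
  ad : a ≠ d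
  bc : b ≠ c
  bd : b ≠ d
  cd : c ≠ d
  P1 : {s(a, b), s(c, d)} ∈ M
  P2 : {s(b, c), s(d, a)} ∈ M

theorem Cyc.facts (h : Cyc M a b c d) : (a ≠ b ∧ a ≠ c ∧ a ≠ d ∧ b ≠ c ∧ b ≠ d ∧ c ≠ d) ∧
    (b ≠ a ∧ c ≠ a ∧ d ≠ a ∧ c ≠ b ∧ d ≠ b ∧ d ≠ c) :=
  ⟨⟨h.ab, h.ac, h.ad, h.bc, h.bd, h.cd⟩,
    ⟨h.ab.symm, h.ac.symm, h.ad.symm, h.bc.symm, h.bd.symm, h.cd.symm⟩⟩

theorem Cyc.rot (h : Cyc M a b c d) : Cyc M b c d a :=
  ⟨h.bc, h.bd, h.ab.symm, h.cd, h.ac.symm, h.ad.symm, h.P2, by rw [Finset.pair_comm]; exact h.P1⟩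

theorem Cyc.refl (h : Cyc M a b c d) : Cyc M b a d c :=
  ⟨h.ab.symm, h.bd, h.bc, h.ad, h.ac, h.cd.symm,
    by rw [Sym2.eq_swap, Sym2.eq_swap (a := d)]; exact h.P1,
    by rw [Finset.pair_comm, Sym2.eq_swap, Sym2.eq_swap (a := a)]; exact h.P2⟩

/-- `x` is different from `a, b, c, d` -/
structure Out (a b c d x : V) : Prop where
  na : x ≠ a
  nb : x ≠ b
  nc : x ≠ c
  nd : x ≠ d

theorem Out.facts (h : Out a b c d x) : (x ≠ a ∧ x ≠ b ∧ x ≠ c ∧ x ≠ d) ∧
    (a ≠ x ∧ b ≠ x ∧ c ≠ x ∧ d ≠ x) :=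
  ⟨⟨h.na, h.nb, h.nc, h.nd⟩, ⟨h.na.symm, h.nb.symm, h.nc.symm, h.nd.symm⟩⟩

theorem Out.rot (h : Out a b c d x) : Out b c d a x := ⟨h.nb, h.nc, h.nd, h.na⟩

theorem Out.refl (h : Out a b c d x) : Out b a d c x := ⟨h.nb, h.na, h.nd, h.nc⟩

/-- all points of `g` are different from `a, b, c, d` -/
def OutE (a b c d : V) (g : Sym2 V) : Prop := ∀ x ∈ g, Out a b c d x

theorem OutE.rot {g : Sym2 V} (h : OutE a b c d g) : OutE b c d a g := fun x hx => (h x hx).rot

theorem Cyc.ne12 (h : Cyc M a b c d) :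
    ({s(a, b), s(c, d)} : Finset (Sym2 V)) ≠ {s(b, c), s(d, a)} := by
  obtain ⟨⟨ab, ac, ad, bc, bd, cd⟩, ⟨ba, ca, da, cb, db, dc⟩⟩ := h.facts
  intro h1
  have h2 : s(a, b) ∈ ({s(b, c), s(d, a)} : Finset (Sym2 V)) := by rw [← h1]; simp
  simp only [Finset.mem_insert, Finset.mem_singleton, Sym2.eq_iff] at h2
  rcases h2 with (⟨h2, _⟩ | ⟨h2, _⟩) | (⟨h2, _⟩ | ⟨_, h2⟩)
  · exact ab h2
  · exact ac h2
  · exact ad h2
  · exact bd h2

theorem Cyc.sp12 (h : Cyc M a b c d) :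
    sp {s(a, b), s(c, d)} = sp {s(b, c), s(d, a)} := by
  ext v
  simp only [mem_sp_pair, Sym2.mem_iff]
  tauto

/-- a pair of `M` with a member in the cycle has no point outside -/
theorem Cyc.no (hM : Mat E M) (h : Cyc M a b c d) {e f : Sym2 V}
    (he : e = s(a, b) ∨ e = s(b, c) ∨ e = s(c, d) ∨ e = s(d, a)) (hef : {e, f} ∈ M) {x : V}
    (hxf : x ∈ f) (hx : Out a b c d x) : False := by
  obtain ⟨⟨xa, xb, xc, xd⟩, _⟩ := hx.facts
  rcases he with rfl | rfl | rfl | rfl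
  · have := hM.mate hef h.P1
    subst this
    rcases Sym2.mem_iff.1 hxf with h1 | h1
    · exact xc h1
    · exact xd h1
  · have := hM.mate hef h.P2
    subst this
    rcases Sym2.mem_iff.1 hxf with h1 | h1
    · exact xd h1
    · exact xa h1
  · have := hM.mate hef h.rot.rot.P1
    subst this
    rcases Sym2.mem_iff.1 hxf with h1 | h1
    · exact xa h1
    · exact xb h1
  · have := hM.mate hef h.rot.rot.rot.P1
    subst this
    rcases Sym2.mem_iff.1 hxf with h1 | h1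
    · exact xb h1
    · exact xc h1

theorem Cyc.not_mem_out (hM : Mat E M) (h : Cyc M a b c d) {T : Finset (Sym2 V)} (hT : T ∈ M)
    {e : Sym2 V} (he : e ∈ T) (hx : x ∈ e) (hxo : Out a b c d x) :
    T ≠ {s(a, b), s(c, d)} ∧ T ≠ {s(b, c), s(d, a)} := by
  obtain ⟨⟨xa, xb, xc, xd⟩, _⟩ := hxo.facts
  constructor
  · rintro rfl
    simp only [Finset.mem_insert, Finset.mem_singleton] at he
    rcases he with rfl | rfl <;> rcases Sym2.mem_iff.1 hx with h1 | h1 <;> contradiction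
  · rintro rfl
    simp only [Finset.mem_insert, Finset.mem_singleton] at he
    rcases he with rfl | rfl <;> rcases Sym2.mem_iff.1 hx with h1 | h1 <;> contradiction

/-- (A) a pair `{ax, by}` must be blocked -/
theorem Opt.block (hO : Opt E k M) (hC : Cyc M a b c d) (hx : Out a b c d x)
    (hy : Out a b c d y) (hT : {s(a, x), s(b, y)} ∈ M) :
    {s(a, c), s(b, x)} ∈ M ∨ {s(b, d), s(a, y)} ∈ M := by
  obtain ⟨⟨ab, ac, ad, bc, bd, cd⟩, ⟨ba, ca, da, cb, db, dc⟩⟩ := hC.facts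
  obtain ⟨⟨xa, xb, xc, xd⟩, ⟨ax, bx, cx, dx⟩⟩ := hx.facts
  obtain ⟨⟨ya, yb, yc, yd⟩, ⟨ay, by', cy, dy⟩⟩ := hy.facts
  have hxy : x ≠ y := by
    rintro rfl
    exact hO.mat.nt hT ⟨x, by simp, by simp⟩
  have hyx := hxy.symm
  have hno := hC.not_mem_out hO.mat hT (e := s(a, x)) (by simp) (x := x) (by simp) hx
  obtain ⟨R, hR, hRP, hRT, hs⟩ := hO.swap2 hC.P2 hC.P1 hT hC.ne12.symm hno.2 hno.1 hC.sp12.symm
    (e := s(a, x)) (f := s(b, c)) (g := s(b, y)) (h := s(d, a)) (by simp) (by simp) (by simp)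
    (by simp) (by simp [tch_mk, *]) (by simp [tch_mk, *]) (by simp [Sym2.eq_iff, *])
    (by simp [Sym2.eq_iff, *]) (by simp [Sym2.eq_iff, *]) (by simp [Sym2.eq_iff, *])
    (by
      intro h0
      have h1 : c ∈ sp {s(b, y), s(d, a)} := by
        rw [← h0, mem_sp_pair]
        simp
      rw [mem_sp_pair] at h1
      simp [*] at h1)
  rcases hs with hs | hs
  · rcases hO.form4 hR ax ab ac xb xc bc hs with rfl | rfl | rfl
    · exact absurd (hO.mat.eq_of_mem hR hT (e := s(a, x)) (by simp) (by simp)) hRT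
    · exact absurd hx (fun hx => hC.no hO.mat (by simp) hR (x := x) (by simp) hx)
    · left
      rwa [Sym2.eq_swap (a := x)] at hR
  · rcases hO.form4 hR by' bd ba yd ya da hs with rfl | rfl | rfl
    · exact absurd (hO.mat.eq_of_mem hR hT (e := s(b, y)) (by simp) (by simp)) hRT
    · right
      rwa [Sym2.eq_swap (a := y)] at hR
    · exact absurd hy (fun hy => hC.no hO.mat (by simp [Sym2.eq_iff]) hR (x := y) (by simp) hy)

/-- a pair `{ax, by}` of `M` with `g = xy` -/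
def RT (M : Finset (Finset (Sym2 V))) (a b : V) (g : Sym2 V) : Prop :=
  ∃ x y, g = s(x, y) ∧ {s(a, x), s(b, y)} ∈ M

/-- `e` is paired with an edge `iu`, `u ∈ g` -/
def BL (M : Finset (Finset (Sym2 V))) (e : Sym2 V) (i : V) (g : Sym2 V) : Prop :=
  ∃ u ∈ g, {e, s(i, u)} ∈ M

theorem RT.symm {g : Sym2 V} (h : RT M a b g) : RT M b a g := by
  obtain ⟨x, y, rfl, h⟩ := h
  exact ⟨y, x, Sym2.eq_swap, by rw [Finset.pair_comm]; exact h⟩

theorem Opt.block' (hO : Opt E k M) (hC : Cyc M a b c d) {g : Sym2 V} (hg : OutE a b c d g)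
    (h : RT M a b g) : BL M s(a, c) b g ∨ BL M s(b, d) a g := by
  obtain ⟨x, y, rfl, h⟩ := h
  rcases hO.block hC (hg x (by simp)) (hg y (by simp)) h with h1 | h1
  · exact Or.inl ⟨x, by simp, h1⟩
  · exact Or.inr ⟨y, by simp, h1⟩

/-- (B) an unused pair off the cycle -/
theorem Opt.unused0 (hO : Opt E k M) (hC : Cyc M a b c d) {g : Sym2 V} (hg : OutE a b c d g)
    (hgE : g ∈ E) (hgM : ∀ R ∈ M, g ∉ R) : RT M a b g := by
  obtain ⟨⟨ab, ac, ad, bc, bd, cd⟩, ⟨ba, ca, da, cb, db, dc⟩⟩ := hC.facts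
  induction g using Sym2.ind with
  | _ x y =>
    obtain ⟨⟨xa, xb, xc, xd⟩, ⟨ax, bx, cx, dx⟩⟩ := (hg x (by simp)).facts
    obtain ⟨⟨ya, yb, yc, yd⟩, ⟨ay, by', cy, dy⟩⟩ := (hg y (by simp)).facts
    have hxy : x ≠ y := by
      rintro rfl
      exact hO.loop _ hgE (by simp)
    have hyx := hxy.symm
    obtain ⟨R, hR, hRP, hs⟩ := hO.swap1 hC.P1 hC.P2 hC.ne12 hC.sp12 (e := s(x, y)) (f := s(a, b))
      hgE (hO.mat.sub hC.P1 (by simp)) (by simp [tch_mk, *]) (fun R hR _ => hgM R hR)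
      (fun R hR hRP hf => hRP (hO.mat.eq_of_mem hR hC.P1 hf (by simp)))
    rcases hO.form4 hR hxy xa xb ya yb ab hs with rfl | rfl | rfl
    · exact absurd (by simp) (hgM _ hR)
    · exact ⟨x, y, rfl, by rwa [Sym2.eq_swap (a := x), Sym2.eq_swap (a := y)] at hR⟩
    · refine ⟨y, x, Sym2.eq_swap, ?_⟩
      rwa [Finset.pair_comm, Sym2.eq_swap (a := x), Sym2.eq_swap (a := y)] at hR

/-- (C) a pair of `M` off the cycle -/
theorem Opt.type0 (hO : Opt E k M) (hC : Cyc M a b c d) {g h : Sym2 V} (hg : OutE a b c d g)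
    (hh : OutE a b c d h) (hT : {g, h} ∈ M) : RT M a b g ∨ RT M c d h := by
  obtain ⟨⟨ab, ac, ad, bc, bd, cd⟩, ⟨ba, ca, da, cb, db, dc⟩⟩ := hC.facts
  have hgE : g ∈ E := hO.mat.sub hT (by simp)
  have hhE : h ∈ E := hO.mat.sub hT (by simp)
  induction g using Sym2.ind with
  | _ x y =>
  induction h using Sym2.ind with
  | _ z w =>
    obtain ⟨⟨xa, xb, xc, xd⟩, ⟨ax, bx, cx, dx⟩⟩ := (hg x (by simp)).facts
    obtain ⟨⟨ya, yb, yc, yd⟩, ⟨ay, by', cy, dy⟩⟩ := (hg y (by simp)).facts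
    obtain ⟨⟨za, zb, zc, zd⟩, ⟨az, bz, cz, dz⟩⟩ := (hh z (by simp)).facts
    obtain ⟨⟨wa, wb, wc, wd⟩, ⟨aw, bw, cw, dw⟩⟩ := (hh w (by simp)).facts
    have hnt := hO.mat.nt hT
    rw [tch_mk] at hnt
    push Not at hnt
    obtain ⟨xz, xw, yz, yw⟩ := hnt
    have zx := xz.symm
    have wx := xw.symm
    have zy := yz.symm
    have wy := yw.symm
    have hxy : x ≠ y := by
      rintro rfl
      exact hO.loop _ hgE (by simp)
    have hzw : z ≠ w := by
      rintro rfl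
      exact hO.loop _ hhE (by simp)
    have hno := hC.not_mem_out hO.mat hT (e := s(x, y)) (by simp) (x := x) (by simp)
      (hg x (by simp))
    obtain ⟨R, hR, hRP, hRT, hs⟩ := hO.swap2 hC.P1 hC.P2 hT hC.ne12 hno.1 hno.2 hC.sp12
      (e := s(x, y)) (f := s(a, b)) (g := s(z, w)) (h := s(c, d)) (by simp) (by simp) (by simp)
      (by simp) (by simp [tch_mk, *]) (by simp [tch_mk, *]) (by simp [Sym2.eq_iff, *])
      (by simp [Sym2.eq_iff, *]) (by simp [Sym2.eq_iff, *]) (by simp [Sym2.eq_iff, *])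
      (by
        intro h0
        have h1 : a ∈ sp {s(z, w), s(c, d)} := by
          rw [← h0, mem_sp_pair]
          simp
        rw [mem_sp_pair] at h1
        simp [*] at h1)
    rcases hs with hs | hs
    · left
      rcases hO.form4 hR hxy xa xb ya yb ab hs with rfl | rfl | rfl
      · exact absurd (hO.mat.eq_of_mem hR hT (e := s(x, y)) (by simp) (by simp)) hRT
      · exact ⟨x, y, rfl, by rwa [Sym2.eq_swap (a := x), Sym2.eq_swap (a := y)] at hR⟩
      · refine ⟨y, x, Sym2.eq_swap, ?_⟩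
        rwa [Finset.pair_comm, Sym2.eq_swap (a := x), Sym2.eq_swap (a := y)] at hR
    · right
      rcases hO.form4 hR hzw zc zd wc wd cd hs with rfl | rfl | rfl
      · exact absurd (hO.mat.eq_of_mem hR hT (e := s(z, w)) (by simp) (by simp)) hRT
      · exact ⟨z, w, rfl, by rwa [Sym2.eq_swap (a := z), Sym2.eq_swap (a := w)] at hR⟩
      · refine ⟨w, z, Sym2.eq_swap, ?_⟩
        rwa [Finset.pair_comm, Sym2.eq_swap (a := z), Sym2.eq_swap (a := w)] at hR

/-- (D) an unused pair with one point on the cycle -/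
theorem Opt.unused1 (hO : Opt E k M) (hC : Cyc M a b c d) (hx : Out a b c d x)
    (hgE : s(a, x) ∈ E) (hgM : ∀ R ∈ M, s(a, x) ∉ R) : False := by
  obtain ⟨⟨ab, ac, ad, bc, bd, cd⟩, ⟨ba, ca, da, cb, db, dc⟩⟩ := hC.facts
  obtain ⟨⟨xa, xb, xc, xd⟩, ⟨ax, bx, cx, dx⟩⟩ := hx.facts
  have h1 : {s(a, c), s(b, x)} ∈ M := by
    obtain ⟨R, hR, hRP, hs⟩ := hO.swap1 hC.P2 hC.P1 hC.ne12.symm hC.sp12.symm (e := s(a, x))
      (f := s(b, c)) hgE (hO.mat.sub hC.P2 (by simp)) (by simp [tch_mk, *])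
      (fun R hR _ => hgM R hR) (fun R hR hRP hf => hRP (hO.mat.eq_of_mem hR hC.P2 hf (by simp)))
    rcases hO.form4 hR ax ab ac xb xc bc hs with rfl | rfl | rfl
    · exact absurd (by simp) (hgM _ hR)
    · exact absurd hx (fun hx => hC.no hO.mat (by simp) hR (x := x) (by simp) hx)
    · rwa [Sym2.eq_swap (a := x)] at hR
  have h2 : {s(a, c), s(d, x)} ∈ M := by
    obtain ⟨R, hR, hRP, hs⟩ := hO.swap1 hC.P1 hC.P2 hC.ne12 hC.sp12 (e := s(a, x))
      (f := s(c, d)) hgE (hO.mat.sub hC.P1 (by simp)) (by simp [tch_mk, *])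
      (fun R hR _ => hgM R hR) (fun R hR hRP hf => hRP (hO.mat.eq_of_mem hR hC.P1 hf (by simp)))
    rcases hO.form4 hR ax ac ad xc xd cd hs with rfl | rfl | rfl
    · exact absurd (by simp) (hgM _ hR)
    · rwa [Sym2.eq_swap (a := x)] at hR
    · exact absurd hx (fun hx => hC.no hO.mat (by simp [Sym2.eq_iff]) hR (x := x) (by simp) hx)
  have h3 := hO.mat.mate h1 h2
  simp [Sym2.eq_iff, *] at h3

/-- (E) a pair with opposite feet -/
theorem Opt.opposite (hO : Opt E k M) (hC : Cyc M a b c d) (hx : Out a b c d x)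
    (hy : Out a b c d y) (hT : {s(a, x), s(c, y)} ∈ M) : False := by
  obtain ⟨⟨ab, ac, ad, bc, bd, cd⟩, ⟨ba, ca, da, cb, db, dc⟩⟩ := hC.facts
  obtain ⟨⟨xa, xb, xc, xd⟩, ⟨ax, bx, cx, dx⟩⟩ := hx.facts
  obtain ⟨⟨ya, yb, yc, yd⟩, ⟨ay, by', cy, dy⟩⟩ := hy.facts
  have hxy : x ≠ y := by
    rintro rfl
    exact hO.mat.nt hT ⟨x, by simp, by simp⟩
  have hyx := hxy.symm
  have hno := hC.not_mem_out hO.mat hT (e := s(a, x)) (by simp) (x := x) (by simp) hx
  have h1 : {s(a, c), s(b, x)} ∈ M ∨ {s(a, c), s(d, y)} ∈ M := by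
    obtain ⟨R, hR, hRP, hRT, hs⟩ := hO.swap2 hC.P2 hC.P1 hT hC.ne12.symm hno.2 hno.1 hC.sp12.symm
      (e := s(a, x)) (f := s(b, c)) (g := s(c, y)) (h := s(d, a)) (by simp) (by simp) (by simp)
      (by simp) (by simp [tch_mk, *]) (by simp [tch_mk, *]) (by simp [Sym2.eq_iff, *])
      (by simp [Sym2.eq_iff, *]) (by simp [Sym2.eq_iff, *]) (by simp [Sym2.eq_iff, *])
      (by
        intro h0
        have h1 : b ∈ sp {s(c, y), s(d, a)} := by
          rw [← h0, mem_sp_pair]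
          simp
        rw [mem_sp_pair] at h1
        simp [*] at h1)
    rcases hs with hs | hs
    · rcases hO.form4 hR ax ab ac xb xc bc hs with rfl | rfl | rfl
      · exact absurd (hO.mat.eq_of_mem hR hT (e := s(a, x)) (by simp) (by simp)) hRT
      · exact absurd hx (fun hx => hC.no hO.mat (by simp) hR (x := x) (by simp) hx)
      · left
        rwa [Sym2.eq_swap (a := x)] at hR
    · rcases hO.form4 hR cy cd ca yd ya da hs with rfl | rfl | rfl
      · exact absurd (hO.mat.eq_of_mem hR hT (e := s(c, y)) (by simp) (by simp)) hRT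
      · exact absurd hy (fun hy => hC.no hO.mat (by simp) hR (x := y) (by simp) hy)
      · right
        rwa [Sym2.eq_swap (a := y), Sym2.eq_swap (a := c)] at hR
  have h2 : {s(a, c), s(d, x)} ∈ M ∨ {s(a, c), s(b, y)} ∈ M := by
    obtain ⟨R, hR, hRP, hRT, hs⟩ := hO.swap2 hC.P1 hC.P2 hT hC.ne12 hno.1 hno.2 hC.sp12
      (e := s(a, x)) (f := s(c, d)) (g := s(c, y)) (h := s(a, b)) (by simp) (by simp) (by simp)
      (by simp) (by simp [tch_mk, *]) (by simp [tch_mk, *]) (by simp [Sym2.eq_iff, *])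
      (by simp [Sym2.eq_iff, *]) (by simp [Sym2.eq_iff, *]) (by simp [Sym2.eq_iff, *])
      (by
        intro h0
        have h1 : d ∈ sp {s(c, y), s(a, b)} := by
          rw [← h0, mem_sp_pair]
          simp
        rw [mem_sp_pair] at h1
        simp [*] at h1)
    rcases hs with hs | hs
    · rcases hO.form4 hR ax ac ad xc xd cd hs with rfl | rfl | rfl
      · exact absurd (hO.mat.eq_of_mem hR hT (e := s(a, x)) (by simp) (by simp)) hRT
      · left
        rwa [Sym2.eq_swap (a := x)] at hR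
      · exact absurd hx (fun hx => hC.no hO.mat (by simp [Sym2.eq_iff]) hR (x := x) (by simp) hx)
    · rcases hO.form4 hR cy ca cb ya yb ab hs with rfl | rfl | rfl
      · exact absurd (hO.mat.eq_of_mem hR hT (e := s(c, y)) (by simp) (by simp)) hRT
      · right
        rwa [Sym2.eq_swap (a := y), Sym2.eq_swap (a := c)] at hR
      · exact absurd hy (fun hy => hC.no hO.mat (by simp [Sym2.eq_iff]) hR (x := y) (by simp) hy)
  rcases h1 with h1 | h1 <;> rcases h2 with h2 | h2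
  all_goals
    have h3 := hO.mat.mate h1 h2
    simp [Sym2.eq_iff, *] at h3

/-- (F) a pair with one foot -/
theorem Opt.type1 (hO : Opt E k M) (hC : Cyc M a b c d) (hx : Out a b c d x) {h : Sym2 V}
    (hh : OutE a b c d h) (hT : {s(a, x), h} ∈ M) :
    ({s(a, c), s(d, x)} ∈ M ∨ RT M a b h) ∧ ({s(a, c), s(b, x)} ∈ M ∨ RT M d a h) := by
  obtain ⟨⟨ab, ac, ad, bc, bd, cd⟩, ⟨ba, ca, da, cb, db, dc⟩⟩ := hC.facts
  obtain ⟨⟨xa, xb, xc, xd⟩, ⟨ax, bx, cx, dx⟩⟩ := hx.facts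
  have hhE : h ∈ E := hO.mat.sub hT (by simp)
  induction h using Sym2.ind with
  | _ z w =>
    obtain ⟨⟨za, zb, zc, zd⟩, ⟨az, bz, cz, dz⟩⟩ := (hh z (by simp)).facts
    obtain ⟨⟨wa, wb, wc, wd⟩, ⟨aw, bw, cw, dw⟩⟩ := (hh w (by simp)).facts
    have hnt := hO.mat.nt hT
    rw [tch_mk] at hnt
    push Not at hnt
    obtain ⟨_, _, xz, xw⟩ := hnt
    have zx := xz.symm
    have wx := xw.symm
    have hzw : z ≠ w := by
      rintro rfl
      exact hO.loop _ hhE (by simp)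
    have hno := hC.not_mem_out hO.mat hT (e := s(a, x)) (by simp) (x := x) (by simp) hx
    constructor
    · obtain ⟨R, hR, hRP, hRT, hs⟩ := hO.swap2 hC.P1 hC.P2 hT hC.ne12 hno.1 hno.2 hC.sp12
        (e := s(a, x)) (f := s(c, d)) (g := s(z, w)) (h := s(a, b)) (by simp) (by simp) (by simp)
        (by simp) (by simp [tch_mk, *]) (by simp [tch_mk, *]) (by simp [Sym2.eq_iff, *])
        (by simp [Sym2.eq_iff, *]) (by simp [Sym2.eq_iff, *]) (by simp [Sym2.eq_iff, *])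
        (by
          intro h0
          have h1 : c ∈ sp {s(z, w), s(a, b)} := by
            rw [← h0, mem_sp_pair]
            simp
          rw [mem_sp_pair] at h1
          simp [*] at h1)
      rcases hs with hs | hs
      · left
        rcases hO.form4 hR ax ac ad xc xd cd hs with rfl | rfl | rfl
        · exact absurd (hO.mat.eq_of_mem hR hT (e := s(a, x)) (by simp) (by simp)) hRT
        · rwa [Sym2.eq_swap (a := x)] at hR
        · exact absurd hx (fun hx => hC.no hO.mat (by simp [Sym2.eq_iff]) hR (x := x) (by simp) hx)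
      · right
        rcases hO.form4 hR hzw za zb wa wb ab hs with rfl | rfl | rfl
        · exact absurd (hO.mat.eq_of_mem hR hT (e := s(z, w)) (by simp) (by simp)) hRT
        · exact ⟨z, w, rfl, by rwa [Sym2.eq_swap (a := z), Sym2.eq_swap (a := w)] at hR⟩
        · refine ⟨w, z, Sym2.eq_swap, ?_⟩
          rwa [Finset.pair_comm, Sym2.eq_swap (a := z), Sym2.eq_swap (a := w)] at hR
    · obtain ⟨R, hR, hRP, hRT, hs⟩ := hO.swap2 hC.P2 hC.P1 hT hC.ne12.symm hno.2 hno.1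
        hC.sp12.symm
        (e := s(a, x)) (f := s(b, c)) (g := s(z, w)) (h := s(d, a)) (by simp) (by simp) (by simp)
        (by simp) (by simp [tch_mk, *]) (by simp [tch_mk, *]) (by simp [Sym2.eq_iff, *])
        (by simp [Sym2.eq_iff, *]) (by simp [Sym2.eq_iff, *]) (by simp [Sym2.eq_iff, *])
        (by
          intro h0
          have h1 : b ∈ sp {s(z, w), s(d, a)} := by
            rw [← h0, mem_sp_pair]
            simp
          rw [mem_sp_pair] at h1
          simp [*] at h1)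
      rcases hs with hs | hs
      · left
        rcases hO.form4 hR ax ab ac xb xc bc hs with rfl | rfl | rfl
        · exact absurd (hO.mat.eq_of_mem hR hT (e := s(a, x)) (by simp) (by simp)) hRT
        · exact absurd hx (fun hx => hC.no hO.mat (by simp) hR (x := x) (by simp) hx)
        · rwa [Sym2.eq_swap (a := x)] at hR
      · right
        rcases hO.form4 hR hzw zd za wd wa da hs with rfl | rfl | rfl
        · exact absurd (hO.mat.eq_of_mem hR hT (e := s(z, w)) (by simp) (by simp)) hRT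
        · exact ⟨z, w, rfl, by rwa [Sym2.eq_swap (a := z), Sym2.eq_swap (a := w)] at hR⟩
        · refine ⟨w, z, Sym2.eq_swap, ?_⟩
          rwa [Finset.pair_comm, Sym2.eq_swap (a := z), Sym2.eq_swap (a := w)] at hR

/-- (G) adjacent pairs over the same `g` exclude each other -/
theorem Opt.adj_excl (hO : Opt E k M) (hC : Cyc M a b c d) {g : Sym2 V} (hg : OutE a b c d g)
    (h1 : RT M a b g) (h2 : RT M b c g) : False := by
  obtain ⟨⟨ab, ac, ad, bc, bd, cd⟩, ⟨ba, ca, da, cb, db, dc⟩⟩ := hC.facts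
  obtain ⟨x, y, rfl, h1⟩ := h1
  obtain ⟨x', y', h0, h2⟩ := h2
  obtain ⟨⟨xa, xb, xc, xd⟩, ⟨ax, bx, cx, dx⟩⟩ := (hg x (by simp)).facts
  obtain ⟨⟨ya, yb, yc, yd⟩, ⟨ay, by', cy, dy⟩⟩ := (hg y (by simp)).facts
  rw [Sym2.eq_iff] at h0
  rcases h0 with ⟨rfl, rfl⟩ | ⟨rfl, rfl⟩
  · rcases hO.block hC (hg x (by simp)) (hg y (by simp)) h1 with h3 | h3
    · rw [Finset.pair_comm] at h3
      have := hO.mat.mate h3 h2
      simp [Sym2.eq_iff, *] at this
    · rcases hO.block hC.rot (hg x (by simp)).rot (hg y (by simp)).rot h2 with h4 | h4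
      · have := hO.mat.mate h3 h4
        simp [Sym2.eq_iff, *] at this
      · rw [Finset.pair_comm] at h1 h4
        have := hO.mat.mate h1 h4
        simp [Sym2.eq_iff, *] at this
  · rw [Finset.pair_comm] at h1
    have := hO.mat.mate h1 h2
    simp [Sym2.eq_iff, *] at this

/-- (I) no unused pair off the cycle -/
theorem Opt.no_unused0 (hO : Opt E k M) (hC : Cyc M a b c d) {g : Sym2 V}
    (hg : OutE a b c d g) (hgE : g ∈ E) (hgM : ∀ R ∈ M, g ∉ R) : False :=
  hO.adj_excl hC hg (hO.unused0 hC hg hgE hgM) (hO.unused0 hC.rot hg.rot hgE hgM)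

end Pool.Agent.H81.LG
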