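import Pool.Agent.H81.LG.Cyc

/-!
# An optimal matching has no two pairs with the same span
-/

set_option autoImplicit false
set_option linter.unusedSectionVars false
set_option linter.unusedVariables false
set_option linter.unusedSimpArgs false

namespace Pool.Agent.H81.LG

open Finset

variable {V : Type} [DecidableEq V]
variable {E : Finset (Sym2 V)} {k : ℕ} {M : Finset (Finset (Sym2 V))} {a b c d x y : V}

theorem BL.excl (hM : Mat E M) {e : Sym2 V} {i j : V} {g h : Sym2 V} (h1 : BL M e i g)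
    (h2 : BL M e j h) (hij : i ≠ j) (hih : i ∉ h) : False := by
  obtain ⟨u, hu, h1⟩ := h1
  obtain ⟨v, hv, h2⟩ := h2
  have h3 := hM.mate h1 h2
  rcases Sym2.eq_iff.1 h3 with ⟨h4, _⟩ | ⟨h4, _⟩
  · exact hij h4
  · exact hih (h4 ▸ hv)

theorem BL.excl' (hM : Mat E M) {e : Sym2 V} {i : V} {g h : Sym2 V} (h1 : BL M e i g)
    (h2 : BL M e i h) (hgh : ¬ Tch g h) (hih : i ∉ h) : False := by
  obtain ⟨u, hu, h1⟩ := h1
  obtain ⟨v, hv, h2⟩ := h2
  have h3 := hM.mate h1 h2
  rcases Sym2.eq_iff.1 h3 with ⟨_, h4⟩ | ⟨h4, _⟩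
  · exact hgh ⟨u, hu, h4 ▸ hv⟩
  · exact hih (h4 ▸ hv)

theorem OutE.nmem {g : Sym2 V} (h : OutE a b c d g) : a ∉ g ∧ b ∉ g ∧ c ∉ g ∧ d ∉ g :=
  ⟨fun h1 => (h a h1).na rfl, fun h1 => (h b h1).nb rfl, fun h1 => (h c h1).nc rfl,
    fun h1 => (h d h1).nd rfl⟩

theorem BL.comm {e f : Sym2 V} (hef : e = f) {i : V} {g : Sym2 V} (h : BL M e i g) : BL M f i g :=
  hef ▸ h

/-- auxiliary statement for (J) -/
theorem Opt.no_type0_aux (hO : Opt E k M) (hC : Cyc M a b c d) {g h : Sym2 V}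
    (hg : OutE a b c d g) (hh : OutE a b c d h) (hT : {g, h} ∈ M) (h1 : RT M a b g) : False := by
  obtain ⟨⟨ab, ac, ad, bc, bd, cd⟩, ⟨ba, ca, da, cb, db, dc⟩⟩ := hC.facts
  have hT' : {h, g} ∈ M := by rw [Finset.pair_comm]; exact hT
  have hgh : ¬ Tch g h := hO.mat.nt hT
  have hhg : ¬ Tch h g := not_tch_symm hgh
  have hCr := hC.rot
  have hCrr := hC.rot.rot
  have hCrrr := hC.rot.rot.rot
  -- da h
  have h2 : RT M d a h := by
    rcases hO.type0 hCr hg.rot hh.rot hT with h3 | h3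
    · exact absurd h3 (fun h3 => hO.adj_excl hC hg h1 h3)
    · exact h3
  have h3 : RT M b c h := by
    rcases hO.type0 hCr hh.rot hg.rot hT' with h4 | h4
    · exact h4
    · exact absurd h4 (fun h4 => hO.adj_excl hCrrr hg.rot.rot.rot h4 h1)
  have h4 : RT M c d g := by
    rcases hO.type0 hC hh hg hT' with h5 | h5
    · exact absurd h5 (fun h5 => hO.adj_excl hC hh h5 h3)
    · exact h5
  obtain ⟨nag, nbg, ncg, ndg⟩ := hg.nmem
  obtain ⟨nah, nbh, nch, ndh⟩ := hh.nmem
  have B1 := hO.block' hC hg h1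
  have B2 := hO.block' hCrr hg.rot.rot h4
  have B3 := hO.block' hCr hh.rot h3
  have B4 := hO.block' hCrrr hh.rot.rot.rot h2
  rw [Sym2.eq_swap (a := c) (b := a), Sym2.eq_swap (a := d) (b := b)] at B2
  rw [Sym2.eq_swap (a := c) (b := a)] at B3
  rw [Sym2.eq_swap (a := d) (b := b)] at B4
  -- B1: ac~b(g) or bd~a(g);  B2: ac~d(g) or bd~c(g);  B3: bd~c(h) or ac~b(h);
  -- B4: bd~a(h) or ac~d(h)
  rcases B1 with B1 | B1
  · rcases B2 with B2 | B2
    · exact B1.excl hO.mat B2 bd nbg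
    · rcases B3 with B3 | B3
      · exact B2.excl' hO.mat B3 hgh nch
      · exact B1.excl' hO.mat B3 hgh nbh
  · rcases B2 with B2 | B2
    · rcases B3 with B3 | B3
      · exact B1.excl hO.mat B3 ac nah
      · exact B2.excl hO.mat B3 db ndh
    · exact B1.excl hO.mat B2 ac nag

/-- (J) no pair of `M` off the cycle -/
theorem Opt.no_type0 (hO : Opt E k M) (hC : Cyc M a b c d) {g h : Sym2 V}
    (hg : OutE a b c d g) (hh : OutE a b c d h) (hT : {g, h} ∈ M) : False := by
  rcases hO.type0 hC hg hh hT with h1 | h1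
  · exact hO.no_type0_aux hC hg hh hT h1
  · exact hO.no_type0_aux hC.rot.rot hh.rot.rot hg.rot.rot (by rw [Finset.pair_comm]; exact hT) h1

/-- the colouring lemma: a set `S` of points and a set `M₁ ⊆ M` with `|S| < |M₁|` -/
theorem Opt.colour (hO : Opt E k M) (S : Finset V) (M₁ : Finset (Finset (Sym2 V))) (h1 : M₁ ⊆ M)
    (h2 : ∀ e ∈ E, (∃ v ∈ S, v ∈ e) ∨ ∃ T ∈ M, T ∉ M₁ ∧ e ∈ T)
    (h3 : ∀ T ∈ M, T ∉ M₁ → ∀ e ∈ T, ∀ f ∈ T, (∀ v ∈ S, v ∉ e) → (∀ v ∈ S, v ∉ f) → e = f) :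
    M₁.card ≤ S.card := by
  classical
  by_contra hlt
  push Not at hlt
  apply hO.ncol
  let col : Sym2 V → V ⊕ Finset (Sym2 V) := fun e =>
    if h : ∃ v ∈ S, v ∈ e then Sum.inl h.choose
    else if h' : ∃ T ∈ M, T ∉ M₁ ∧ e ∈ T then Sum.inr h'.choose else Sum.inr ∅
  have hc1 : ∀ e, (h : ∃ v ∈ S, v ∈ e) → col e = Sum.inl h.choose := fun e h => dif_pos h
  have hc2 : ∀ e, (¬ ∃ v ∈ S, v ∈ e) → (h' : ∃ T ∈ M, T ∉ M₁ ∧ e ∈ T) →
      col e = Sum.inr h'.choose := by
    intro e h h'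
    show (if h : ∃ v ∈ S, v ∈ e then Sum.inl h.choose
      else if h' : ∃ T ∈ M, T ∉ M₁ ∧ e ∈ T then Sum.inr h'.choose else Sum.inr ∅) = _
    rw [dif_neg h, dif_pos h']
  refine col_of col ?_ ?_
  · have hsub : E.image col ⊆ S.image Sum.inl ∪ (M \ M₁).image Sum.inr := by
      intro X hX
      obtain ⟨e, he, rfl⟩ := Finset.mem_image.1 hX
      by_cases h : ∃ v ∈ S, v ∈ e
      · rw [hc1 e h]
        exact Finset.mem_union_left _ (Finset.mem_image_of_mem _ h.choose_spec.1)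
      · have h' := (h2 e he).resolve_left h
        rw [hc2 e h h']
        exact Finset.mem_union_right _ (Finset.mem_image_of_mem _
          (Finset.mem_sdiff.2 ⟨h'.choose_spec.1, h'.choose_spec.2.1⟩))
    refine (Finset.card_le_card hsub).trans ((Finset.card_union_le _ _).trans ?_)
    have k1 : (S.image (Sum.inl : V → V ⊕ Finset (Sym2 V))).card ≤ S.card := Finset.card_image_le
    have k2 : ((M \ M₁).image (Sum.inr : Finset (Sym2 V) → V ⊕ Finset (Sym2 V))).card ≤
        (M \ M₁).card := Finset.card_image_le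
    have k3 := Finset.card_sdiff_add_card_eq_card h1
    have k4 := hO.card
    omega
  · intro e he f hf hef
    by_cases h : ∃ v ∈ S, v ∈ e <;> by_cases h' : ∃ v ∈ S, v ∈ f
    · rw [hc1 e h, hc1 f h'] at hef
      have h4 := Sum.inl.inj hef
      exact ⟨h.choose, h.choose_spec.2, h4 ▸ h'.choose_spec.2⟩
    · have h5 := (h2 f hf).resolve_left h'
      rw [hc1 e h, hc2 f h' h5] at hef
      simp at hef
    · have h5 := (h2 e he).resolve_left h
      rw [hc1 f h', hc2 e h h5] at hef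
      simp at hef
    · have h5 := (h2 e he).resolve_left h
      have h6 := (h2 f hf).resolve_left h'
      rw [hc2 e h h5, hc2 f h' h6] at hef
      have h7 := Sum.inr.inj hef
      have h8 : e = f := by
        refine h3 _ h5.choose_spec.1 h5.choose_spec.2.1 e h5.choose_spec.2.2 f
          (h7 ▸ h6.choose_spec.2.2) ?_ ?_
        · intro v hv hve
          exact h ⟨v, hv, hve⟩
        · intro v hv hvf
          exact h' ⟨v, hv, hvf⟩
      rw [h8]
      exact Tch.refl f

/-- (H) no pair `{ax, by}`, main case -/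
theorem Opt.noR_aux (hO : Opt E k M) (hC : Cyc M a b c d) (hx : Out a b c d x)
    (hy : Out a b c d y) (hT : {s(a, x), s(b, y)} ∈ M) (hA : {s(a, c), s(b, x)} ∈ M) : False := by
  obtain ⟨⟨ab, ac, ad, bc, bd, cd⟩, ⟨ba, ca, da, cb, db, dc⟩⟩ := hC.facts
  obtain ⟨⟨xa, xb, xc, xd⟩, ⟨ax, bx, cx, dx⟩⟩ := hx.facts
  obtain ⟨⟨ya, yb, yc, yd⟩, ⟨ay, by', cy, dy⟩⟩ := hy.facts
  have hCrrr := hC.rot.rot.rot
  -- no pair with a single foot `d`
  have hd : ∀ z h, Out a b c d z → OutE a b c d h → {s(d, z), h} ∈ M → False := by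
    intro z h hz hh hzh
    obtain ⟨⟨za, zb, zc, zd⟩, ⟨az, bz, cz, dz⟩⟩ := hz.facts
    obtain ⟨nah, nbh, nch, ndh⟩ := hh.nmem
    have hzh' : z ∉ h := fun h0 => hO.mat.nt hzh ⟨z, by simp, h0⟩
    obtain ⟨k1, k2⟩ := hO.type1 hCrrr hz.rot.rot.rot hh.rot.rot.rot hzh
    -- k1 : db ~ cz or RT d a h; k2 : db ~ az or RT c d h
    have key1 : RT M d a h → {s(d, b), s(a, z)} ∈ M → False := by
      intro q1 q2
      rcases hO.block' hCrrr hh.rot.rot.rot q1 with q3 | q3
      · obtain ⟨u, hu, q3⟩ := q3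
        have := hO.mat.mate q2 q3
        rcases Sym2.eq_iff.1 this with ⟨_, h4⟩ | ⟨h4, _⟩
        · exact hzh' (h4 ▸ hu)
        · exact nah (h4 ▸ hu)
      · obtain ⟨u, hu, q3⟩ := q3
        have := hO.mat.mate hA q3
        rcases Sym2.eq_iff.1 this with ⟨h4, _⟩ | ⟨h4, _⟩
        · exact bd h4
        · exact nbh (h4 ▸ hu)
    have key2 : RT M c d h → {s(d, b), s(c, z)} ∈ M → False := by
      intro q1 q2
      rcases hO.block' hC.rot.rot hh.rot.rot q1 with q3 | q3
      · obtain ⟨u, hu, q3⟩ := q3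
        rw [Sym2.eq_swap (a := c)] at q3
        have := hO.mat.mate hA q3
        rcases Sym2.eq_iff.1 this with ⟨h4, _⟩ | ⟨h4, _⟩
        · exact bd h4
        · exact nbh (h4 ▸ hu)
      · obtain ⟨u, hu, q3⟩ := q3
        have := hO.mat.mate q2 q3
        rcases Sym2.eq_iff.1 this with ⟨_, h4⟩ | ⟨h4, _⟩
        · exact hzh' (h4 ▸ hu)
        · exact nch (h4 ▸ hu)
    rcases k1 with k1 | k1 <;> rcases k2 with k2 | k2
    · have := hO.mat.mate k1 k2
      simp [Sym2.eq_iff, *] at this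
    · exact key2 k2 k1
    · exact key1 k1 k2
    · exact hO.adj_excl hC.rot.rot hh.rot.rot k2 k1
  -- the four pairs
  have hP1 := hC.P1
  have hP2 := hC.P2
  have n12 := hC.ne12
  have hTn := hC.not_mem_out hO.mat hT (e := s(a, x)) (by simp) (x := x) (by simp) hx
  have hAn := hC.not_mem_out hO.mat hA (e := s(b, x)) (by simp) (x := x) (by simp) hx
  have hTA : ({s(a, x), s(b, y)} : Finset (Sym2 V)) ≠ {s(a, c), s(b, x)} := by
    intro h0
    have : s(a, x) ∈ ({s(a, c), s(b, x)} : Finset (Sym2 V)) := by rw [← h0]; simp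
    simp [Sym2.eq_iff, *] at this
  have hcard : ({{s(a, b), s(c, d)}, {s(b, c), s(d, a)}, {s(a, x), s(b, y)},
      {s(a, c), s(b, x)}} : Finset (Finset (Sym2 V))).card = 4 := by
    rw [Finset.card_insert_of_notMem, Finset.card_insert_of_notMem, Finset.card_insert_of_notMem,
      Finset.card_singleton]
    · rw [Finset.mem_singleton]
      exact hTA
    · rw [Finset.mem_insert, Finset.mem_singleton, not_or]
      exact ⟨hTn.2.symm, hAn.2.symm⟩
    · rw [Finset.mem_insert, Finset.mem_insert, Finset.mem_singleton, not_or, not_or]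
      exact ⟨n12, hTn.1.symm, hAn.1.symm⟩
  have hS : ({a, b, c} : Finset V).card ≤ 3 := Finset.card_le_three
  have hmain := hO.colour {a, b, c} {{s(a, b), s(c, d)}, {s(b, c), s(d, a)}, {s(a, x), s(b, y)},
      {s(a, c), s(b, x)}} ?_ ?_ ?_
  · omega
  · intro T hT'
    simp only [Finset.mem_insert, Finset.mem_singleton] at hT'
    rcases hT' with rfl | rfl | rfl | rfl <;> assumption
  · intro e he
    by_cases h1 : ∃ v ∈ ({a, b, c} : Finset V), v ∈ e
    · exact Or.inl h1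
    right
    push Not at h1
    have na : a ∉ e := h1 a (by simp)
    have nb : b ∉ e := h1 b (by simp)
    have nc : c ∉ e := h1 c (by simp)
    by_cases h2 : ∃ T ∈ M, e ∈ T
    · obtain ⟨T, hT', heT⟩ := h2
      refine ⟨T, hT', ?_, heT⟩
      intro h3
      simp only [Finset.mem_insert, Finset.mem_singleton] at h3
      rcases h3 with rfl | rfl | rfl | rfl
      all_goals
        simp only [Finset.mem_insert, Finset.mem_singleton] at heT
        rcases heT with rfl | rfl <;> simp at na nb nc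
    · exfalso
      push Not at h2
      by_cases hde : d ∈ e
      · obtain ⟨z, rfl⟩ := hde
        have hzd : z ≠ d := by
          rintro rfl
          exact hO.loop _ he (by simp)
        have hz : Out a b c d z := by
          simp only [Sym2.mem_iff, not_or] at na nb nc
          exact ⟨Ne.symm na.2, Ne.symm nb.2, Ne.symm nc.2, hzd⟩
        exact hO.unused1 hCrrr hz.rot.rot.rot he h2
      · have hout : OutE a b c d e := by
          intro z hz
          exact ⟨fun h0 => na (h0 ▸ hz), fun h0 => nb (h0 ▸ hz), fun h0 => nc (h0 ▸ hz),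
            fun h0 => hde (h0 ▸ hz)⟩
        exact hO.no_unused0 hC hout he h2
  · intro T hT' hTM e he f hf h1 h2
    by_contra hef
    have hna : a ∉ e := h1 a (by simp)
    have hnb : b ∉ e := h1 b (by simp)
    have hnc : c ∉ e := h1 c (by simp)
    have hna' : a ∉ f := h2 a (by simp)
    have hnb' : b ∉ f := h2 b (by simp)
    have hnc' : c ∉ f := h2 c (by simp)
    obtain ⟨f', hf'E, hef', rfl⟩ := hO.mat.form hT' he
    have hff' : f = f' := by
      simp only [Finset.mem_insert, Finset.mem_singleton] at hf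
      rcases hf with h0 | h0
      · exact absurd h0.symm hef
      · exact h0
    subst hff'
    have hout : ∀ j : Sym2 V, a ∉ j → b ∉ j → c ∉ j → d ∉ j → OutE a b c d j := by
      intro j q1 q2 q3 q4 z hz
      exact ⟨fun h0 => q1 (h0 ▸ hz), fun h0 => q2 (h0 ▸ hz), fun h0 => q3 (h0 ▸ hz),
        fun h0 => q4 (h0 ▸ hz)⟩
    have hfoot : ∀ j j' : Sym2 V, j ∈ E → {j, j'} ∈ M → a ∉ j → b ∉ j → c ∉ j → a ∉ j' →
        b ∉ j' → c ∉ j' → d ∈ j → False := by
      intro j j' hj hjj' q1 q2 q3 q4 q5 q6 q7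
      obtain ⟨z, rfl⟩ := q7
      have hzd : z ≠ d := by
        rintro rfl
        exact hO.loop _ hj (by simp)
      simp only [Sym2.mem_iff, not_or] at q1 q2 q3
      refine hd z j' ⟨Ne.symm q1.2, Ne.symm q2.2, Ne.symm q3.2, hzd⟩ (hout j' q4 q5 q6 ?_) hjj'
      intro h0
      exact hO.mat.nt hjj' ⟨d, by simp, h0⟩
    by_cases hde : d ∈ e
    · exact hfoot e f (hO.mat.sub hT' he) hT' hna hnb hnc hna' hnb' hnc' hde
    · by_cases hdf : d ∈ f
      · exact hfoot f e hf'E (by rw [Finset.pair_comm]; exact hT') hna' hnb' hnc' hna hnb hnc hdf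
      · exact hO.no_type0 hC (hout e hna hnb hnc hde) (hout f hna' hnb' hnc' hdf) hT'

/-- (H) no pair `{ax, by}` -/
theorem Opt.noR (hO : Opt E k M) (hC : Cyc M a b c d) (hx : Out a b c d x)
    (hy : Out a b c d y) (hT : {s(a, x), s(b, y)} ∈ M) : False := by
  rcases hO.block hC hx hy hT with hA | hA
  · exact hO.noR_aux hC hx hy hT hA
  · exact hO.noR_aux hC.refl hy.refl hx.refl (by rw [Finset.pair_comm]; exact hT) hA

theorem Opt.noRT (hO : Opt E k M) (hC : Cyc M a b c d) {g : Sym2 V} (hg : OutE a b c d g)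
    (h : RT M a b g) : False := by
  obtain ⟨x, y, rfl, h⟩ := h
  exact hO.noR hC (hg x (by simp)) (hg y (by simp)) h

/-- (K) no pair with one foot -/
theorem Opt.no_type1 (hO : Opt E k M) (hC : Cyc M a b c d) (hx : Out a b c d x) {h : Sym2 V}
    (hh : OutE a b c d h) (hT : {s(a, x), h} ∈ M) : False := by
  obtain ⟨⟨ab, ac, ad, bc, bd, cd⟩, ⟨ba, ca, da, cb, db, dc⟩⟩ := hC.facts
  obtain ⟨⟨xa, xb, xc, xd⟩, ⟨ax, bx, cx, dx⟩⟩ := hx.facts
  obtain ⟨k1, k2⟩ := hO.type1 hC hx hh hT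
  have k1' := k1.resolve_right (fun h0 => hO.noRT hC hh h0)
  have k2' := k2.resolve_right (fun h0 => hO.noRT hC.rot.rot.rot hh.rot.rot.rot h0)
  have := hO.mat.mate k1' k2'
  simp [Sym2.eq_iff, *] at this

end Pool.Agent.H81.LG
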