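import Pool.Agent.H81.LG.NoCyc
import Pool.Graph.R_pool_sql_team_seeded_63374d34.Results.MP_b47bfb_co.TwoKTwoFree

/-!
# Small clique minors of disjointness graphs of pairs
-/

set_option autoImplicit false
set_option linter.unusedSectionVars false
set_option linter.unusedVariables false
set_option linter.unusedSimpArgs false

namespace Pool.Agent.H81.LG

open Finset Pool.Agent.Results.MP_b47bfb_co

variable {V : Type} [DecidableEq V]

/-- a model of a complete graph in the disjointness graph of `E`, with small branch sets -/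
def Mdl (E : Finset (Sym2 V)) (B : Finset (Finset (Sym2 V))) : Prop :=
  (∀ P ∈ B, ∃ e ∈ E, ∃ f ∈ E, P = {e, f} ∧ (e = f ∨ ¬ Tch e f)) ∧
    ∀ P ∈ B, ∀ Q ∈ B, P ≠ Q → Disjoint P Q ∧ ∃ e ∈ P, ∃ f ∈ Q, ¬ Tch e f

def HasM (E : Finset (Sym2 V)) (t : ℕ) : Prop := ∃ B, Mdl E B ∧ t ≤ B.card

theorem HasM.mono {E F : Finset (Sym2 V)} {t u : ℕ} (h : HasM E t) (hF : E ⊆ F) (hu : u ≤ t) :
    HasM F u := by
  obtain ⟨B, ⟨h1, h2⟩, h3⟩ := h
  refine ⟨B, ⟨?_, h2⟩, hu.trans h3⟩
  intro P hP
  obtain ⟨e, he, f, hf, h4⟩ := h1 P hP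
  exact ⟨e, hF he, f, hF hf, h4⟩

theorem HasM.union {X Y : Finset (Sym2 V)} {t u : ℕ} (h : HasM X t) (h' : HasM Y u)
    (hXY : ∀ e ∈ X, ∀ f ∈ Y, ¬ Tch e f) : HasM (X ∪ Y) (t + u) := by
  obtain ⟨B, ⟨h1, h2⟩, h3⟩ := h
  obtain ⟨B', ⟨h1', h2'⟩, h3'⟩ := h'
  have hsub : ∀ P ∈ B, P ⊆ X ∧ P.Nonempty := by
    intro P hP
    obtain ⟨e, he, f, hf, rfl, _⟩ := h1 P hP
    refine ⟨?_, ⟨e, by simp⟩⟩
    intro g hg
    simp only [Finset.mem_insert, Finset.mem_singleton] at hg
    rcases hg with rfl | rfl <;> assumption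
  have hsub' : ∀ P ∈ B', P ⊆ Y ∧ P.Nonempty := by
    intro P hP
    obtain ⟨e, he, f, hf, rfl, _⟩ := h1' P hP
    refine ⟨?_, ⟨e, by simp⟩⟩
    intro g hg
    simp only [Finset.mem_insert, Finset.mem_singleton] at hg
    rcases hg with rfl | rfl <;> assumption
  have hdis : ∀ e ∈ X, e ∉ Y := fun e he he' => hXY e he e he' (Tch.refl e)
  have hcross : ∀ P ∈ B, ∀ Q ∈ B', Disjoint P Q ∧ ∃ e ∈ P, ∃ f ∈ Q, ¬ Tch e f := by
    intro P hP Q hQ
    obtain ⟨a1, e, he⟩ := hsub P hP
    obtain ⟨b1, f, hf⟩ := hsub' Q hQ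
    refine ⟨?_, e, he, f, hf, hXY e (a1 he) f (b1 hf)⟩
    rw [Finset.disjoint_left]
    intro g hg hg'
    exact hdis g (a1 hg) (b1 hg')
  refine ⟨B ∪ B', ⟨?_, ?_⟩, ?_⟩
  · intro P hP
    rcases Finset.mem_union.1 hP with hP | hP
    · obtain ⟨e, he, f, hf, h4⟩ := h1 P hP
      exact ⟨e, Finset.mem_union_left _ he, f, Finset.mem_union_left _ hf, h4⟩
    · obtain ⟨e, he, f, hf, h4⟩ := h1' P hP
      exact ⟨e, Finset.mem_union_right _ he, f, Finset.mem_union_right _ hf, h4⟩
  · intro P hP Q hQ hPQ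
    rcases Finset.mem_union.1 hP with hP | hP <;> rcases Finset.mem_union.1 hQ with hQ | hQ
    · exact h2 P hP Q hQ hPQ
    · exact hcross P hP Q hQ
    · obtain ⟨a1, e, he, f, hf, hef⟩ := hcross Q hQ P hP
      exact ⟨a1.symm, f, hf, e, he, not_tch_symm hef⟩
    · exact h2' P hP Q hQ hPQ
  · rw [Finset.card_union_of_disjoint]
    · omega
    · rw [Finset.disjoint_left]
      intro P hP hP'
      obtain ⟨a1, e, he⟩ := hsub P hP
      exact hdis e (a1 he) ((hsub' P hP').1 he)

/-- four pairs touching crosswise form a cycle -/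
theorem cross_form {e f g h : Sym2 V} (he : ¬ e.IsDiag) (hef : ¬ Tch e f) (hgh : ¬ Tch g h)
    (h1 : Tch e g) (h2 : Tch e h) (h3 : Tch f g) (h4 : Tch f h) :
    ∃ a b c d : V, a ≠ b ∧ a ≠ c ∧ a ≠ d ∧ b ≠ c ∧ b ≠ d ∧ c ≠ d ∧ e = s(a, b) ∧ f = s(c, d) ∧
      g = s(b, c) ∧ h = s(d, a) := by
  obtain ⟨b, hb, hb'⟩ := h1
  obtain ⟨a, ha, ha'⟩ := h2
  obtain ⟨c, hc, hc'⟩ := h3
  obtain ⟨d, hd, hd'⟩ := h4
  have ab : a ≠ b := by rintro rfl; exact hgh ⟨a, hb', ha'⟩
  have ac : a ≠ c := by rintro rfl; exact hef ⟨a, ha, hc⟩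
  have ad : a ≠ d := by rintro rfl; exact hef ⟨a, ha, hd⟩
  have bc : b ≠ c := by rintro rfl; exact hef ⟨b, hb, hc⟩
  have bd : b ≠ d := by rintro rfl; exact hef ⟨b, hb, hd⟩
  have cd : c ≠ d := by rintro rfl; exact hgh ⟨c, hc', hd'⟩
  exact ⟨a, b, c, d, ab, ac, ad, bc, bd, cd, (Sym2.mem_and_mem_iff ab).1 ⟨ha, hb⟩,
    (Sym2.mem_and_mem_iff cd).1 ⟨hc, hd⟩, (Sym2.mem_and_mem_iff bc).1 ⟨hb', hc'⟩,
    (Sym2.mem_and_mem_iff ad.symm).1 ⟨hd', ha'⟩⟩

/-- an optimal matching is a model -/
theorem Opt.hasM {E : Finset (Sym2 V)} {k : ℕ} {M : Finset (Finset (Sym2 V))} (hO : Opt E k M)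
    (hk : 2 ≤ k) (hns : ¬ Sep E) : HasM E (k + 1) := by
  refine ⟨M, ⟨?_, ?_⟩, hO.card.ge⟩
  · intro P hP
    obtain ⟨e, he, f, hf, hef, rfl⟩ := hO.mat.pair P hP
    exact ⟨e, he, f, hf, rfl, Or.inr hef⟩
  · intro P hP Q hQ hPQ
    refine ⟨hO.mat.disj P hP Q hQ hPQ, ?_⟩
    by_contra hcon
    push Not at hcon
    obtain ⟨e, he, f, hf, hef, rfl⟩ := hO.mat.pair P hP
    obtain ⟨g, hg, h, hh, hgh, rfl⟩ := hO.mat.pair Q hQ
    obtain ⟨a, b, c, d, ab, ac, ad, bc, bd, cd, rfl, rfl, rfl, rfl⟩ :=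
      cross_form (hO.loop e he) hef hgh (hcon e (by simp) g (by simp))
        (hcon e (by simp) h (by simp)) (hcon f (by simp) g (by simp)) (hcon f (by simp) h (by simp))
    exact hO.no_cyc hk hns ⟨ab, ac, ad, bc, bd, cd, hP, hQ⟩

/-- the disjointness graph of `E` -/
def dgr (E : Finset (Sym2 V)) : SimpleGraph E where
  Adj e f := ¬ Tch e.1 f.1
  symm := ⟨fun _ _ h => not_tch_symm h⟩
  loopless := ⟨fun _ h => h (Tch.refl _)⟩

theorem dgr_ncol {E : Finset (Sym2 V)} {k : ℕ} (h : ¬ Col E k) : ¬ (dgr E).Colorable k := by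
  rintro ⟨C⟩
  apply h
  refine ⟨fun e => if he : e ∈ E then (C ⟨e, he⟩).1 else 0, ?_, ?_⟩
  · have : E.image (fun e => if he : e ∈ E then (C ⟨e, he⟩).1 else 0) ⊆ Finset.range k := by
      intro n hn
      obtain ⟨e, he, rfl⟩ := Finset.mem_image.1 hn
      simp only [he, dif_pos, Finset.mem_range]
      exact (C ⟨e, he⟩).2
    simpa using Finset.card_le_card this
  · intro e he f hf hef
    simp only [he, hf, dif_pos] at hef
    by_contra hn
    exact C.valid (v := ⟨e, he⟩) (w := ⟨f, hf⟩) hn (Fin.ext hef)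

theorem small_connected {W : Type} (H : SimpleGraph W) (S : Set W) (h2 : S.encard ≤ 2)
    (hc : (H.induce S).Connected) : ∃ x y, S = {x, y} ∧ (x = y ∨ H.Adj x y) := by
  obtain ⟨⟨x, hx⟩⟩ := hc.nonempty
  by_cases h : ∃ y ∈ S, y ≠ x
  · obtain ⟨y, hy, hyx⟩ := h
    have hsub : ({x, y} : Set W) ⊆ S := by
      intro z hz
      rcases hz with rfl | hz
      · exact hx
      · rw [Set.mem_singleton_iff] at hz
        rw [hz]; exact hy
    have hfin : S.Finite := Set.finite_of_encard_le_coe (k := 2) (by exact_mod_cast h2)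
    have heq : ({x, y} : Set W) = S :=
      Set.Finite.eq_of_subset_of_encard_le (hfin.subset hsub) hsub (by rw [Set.encard_pair hyx.symm]; exact h2)
    refine ⟨x, y, heq.symm, Or.inr ?_⟩
    obtain ⟨w⟩ := hc.preconnected ⟨x, hx⟩ ⟨y, hy⟩
    cases w with
    | nil => exact absurd rfl hyx
    | @cons _ v _ hadj _ =>
      have hv : v.1 ∈ ({x, y} : Set W) := by rw [heq]; exact v.2
      have hadj' : H.Adj x v.1 := hadj
      rcases hv with hv | hv
      · rw [hv] at hadj'
        exact absurd hadj' (H.irrefl)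
      · rw [Set.mem_singleton_iff] at hv
        rw [hv] at hadj'
        exact hadj'
  · push Not at h
    refine ⟨x, x, ?_, Or.inl rfl⟩
    ext z
    simp only [Set.mem_insert_iff, Set.mem_singleton_iff, or_self]
    constructor
    · exact fun hz => h z hz
    · rintro rfl
      exact hx

theorem hasM_of_dgr {E : Finset (Sym2 V)} {t : ℕ}
    (h : TwoKTwoFree.HasSmallCliqueMinor (dgr E) t) : HasM E t := by
  classical
  obtain ⟨f, h1, h2, h3, h4⟩ := h
  have h5 : ∀ i, ∃ x y : E, f i = {x, y} ∧ (x = y ∨ (dgr E).Adj x y) := fun i =>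
    small_connected _ _ (h1 i) (h2 i)
  choose x y hxy hadj using h5
  let P : Fin t → Finset (Sym2 V) := fun i => {(x i).1, (y i).1}
  have hmem : ∀ i (e : E), e.1 ∈ P i ↔ e ∈ f i := by
    intro i e
    rw [hxy i]
    simp only [P, Finset.mem_insert, Finset.mem_singleton, Set.mem_insert_iff,
      Set.mem_singleton_iff, Subtype.ext_iff]
  have hPE : ∀ i, ∀ e ∈ P i, e ∈ E := by
    intro i e he
    simp only [P, Finset.mem_insert, Finset.mem_singleton] at he
    rcases he with rfl | rfl
    · exact (x i).2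
    · exact (y i).2
  have hdisj : ∀ i j, i ≠ j → Disjoint (P i) (P j) := by
    intro i j hij
    rw [Finset.disjoint_left]
    intro e he he'
    exact Set.disjoint_left.1 (h3 i j hij) ((hmem i ⟨e, hPE i e he⟩).1 he)
      ((hmem j ⟨e, hPE i e he⟩).1 he')
  have hinj : Function.Injective P := by
    intro i j hij
    by_contra hne
    have := hdisj i j hne
    rw [← hij] at this
    have h6 : (x i).1 ∈ P i := by simp [P]
    exact Finset.disjoint_left.1 this h6 h6
  refine ⟨Finset.univ.image P, ⟨?_, ?_⟩, ?_⟩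
  · intro Q hQ
    obtain ⟨i, _, rfl⟩ := Finset.mem_image.1 hQ
    refine ⟨(x i).1, (x i).2, (y i).1, (y i).2, rfl, ?_⟩
    rcases hadj i with h6 | h6
    · exact Or.inl (by rw [h6])
    · exact Or.inr h6
  · intro Q hQ R hR hQR
    obtain ⟨i, _, rfl⟩ := Finset.mem_image.1 hQ
    obtain ⟨j, _, rfl⟩ := Finset.mem_image.1 hR
    have hij : i ≠ j := by
      rintro rfl
      exact hQR rfl
    refine ⟨hdisj i j hij, ?_⟩
    obtain ⟨u, hu, w, hw, huw⟩ := h4 i j hij
    exact ⟨u.1, (hmem i u).2 hu, w.1, (hmem j w).2 hw, huw⟩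
  · rw [Finset.card_image_of_injective _ hinj]
    simp

/-- the extremal case `|E| = 2 k + 1` -/
theorem hasM_small {E : Finset (Sym2 V)} {k : ℕ} (h : Crit E k) (hE : ¬ Sep E)
    (hloop : ∀ e ∈ E, ¬ e.IsDiag) (hcard : E.card = 2 * k + 1) : HasM E (k + 1) := by
  classical
  apply hasM_of_dgr
  refine TwoKTwoFree.result.1 E E (dgr E) (dgr E) ?_ ⟨id, ?_⟩ k (dgr_ncol h.ncol)
  · intro e f g j hef hgj _ _ _ _
    by_contra hcon
    push Not at hcon
    obtain ⟨h1, h2, h3, h4⟩ := hcon
    have h1' : Tch e.1 g.1 := by by_contra h0; exact h1 h0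
    have h2' : Tch e.1 j.1 := by by_contra h0; exact h2 h0
    have h3' : Tch f.1 g.1 := by by_contra h0; exact h3 h0
    have h4' : Tch f.1 j.1 := by by_contra h0; exact h4 h0
    obtain ⟨a, b, c, d, ab, ac, ad, bc, bd, cd, he, hf, hg, hj⟩ :=
      cross_form (hloop e.1 e.2) hef hgj h1' h2' h3' h4'
    have heE := e.2
    have hfE := f.2
    have hgE := g.2
    have hjE := j.2
    rw [he] at heE
    rw [hf] at hfE
    rw [hg] at hgE
    rw [hj] at hjE
    have ba := ab.symm
    have ca := ac.symm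
    have da := ad.symm
    have cb := bc.symm
    have db := bd.symm
    have dc := cd.symm
    have hX : ∀ i ∈ E, (a ∈ i ∨ b ∈ i ∨ c ∈ i ∨ d ∈ i) →
        i = s(a, b) ∨ i = s(b, c) ∨ i = s(c, d) ∨ i = s(d, a) := by
      intro i hi hor
      by_contra hne
      push Not at hne
      obtain ⟨n1, n2, n3, n4⟩ := hne
      rcases hor with hv | hv | hv | hv
      · exact deg_le_two h hE hloop hcard (v := a) (f₁ := s(a, b)) (f₂ := s(d, a)) (f₃ := i)
          (by simp [Sym2.eq_iff, *]) n1.symm n4.symm heE hjE hi (by simp) (by simp) hv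
      · exact deg_le_two h hE hloop hcard (v := b) (f₁ := s(a, b)) (f₂ := s(b, c)) (f₃ := i)
          (by simp [Sym2.eq_iff, *]) n1.symm n2.symm heE hgE hi (by simp) (by simp) hv
      · exact deg_le_two h hE hloop hcard (v := c) (f₁ := s(b, c)) (f₂ := s(c, d)) (f₃ := i)
          (by simp [Sym2.eq_iff, *]) n2.symm n3.symm hgE hfE hi (by simp) (by simp) hv
      · exact deg_le_two h hE hloop hcard (v := d) (f₁ := s(c, d)) (f₂ := s(d, a)) (f₃ := i)
          (by simp [Sym2.eq_iff, *]) n3.symm n4.symm hfE hjE hi (by simp) (by simp) hv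
    let X : Finset (Sym2 V) := {s(a, b), s(b, c), s(c, d), s(d, a)}
    have hXE : X ⊆ E := by
      intro i hi
      simp only [X, Finset.mem_insert, Finset.mem_singleton] at hi
      rcases hi with rfl | rfl | rfl | rfl <;> assumption
    have hXcard : X.card = 4 := by
      simp only [X]
      rw [Finset.card_insert_of_notMem, Finset.card_insert_of_notMem,
        Finset.card_insert_of_notMem, Finset.card_singleton]
      · simp [Sym2.eq_iff, *]
      · simp [Sym2.eq_iff, *]
      · simp [Sym2.eq_iff, *]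
    by_cases hY : (E \ X).Nonempty
    · apply hE
      refine ⟨X, E \ X, Finset.union_sdiff_of_subset hXE, ⟨s(a, b), by simp [X]⟩, hY, ?_⟩
      intro i hi i' hi' ht
      rw [Finset.mem_sdiff] at hi'
      apply hi'.2
      obtain ⟨v, hv, hv'⟩ := ht
      have hvor : v = a ∨ v = b ∨ v = c ∨ v = d := by
        simp only [X, Finset.mem_insert, Finset.mem_singleton] at hi
        rcases hi with rfl | rfl | rfl | rfl <;> rw [Sym2.mem_iff] at hv <;> tauto
      have := hX i' hi'.1 (by
        rcases hvor with rfl | rfl | rfl | rfl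
        · exact Or.inl hv'
        · exact Or.inr (Or.inl hv')
        · exact Or.inr (Or.inr (Or.inl hv'))
        · exact Or.inr (Or.inr (Or.inr hv')))
      simp only [X, Finset.mem_insert, Finset.mem_singleton]
      exact this
    · rw [Finset.not_nonempty_iff_eq_empty, Finset.sdiff_eq_empty_iff_subset] at hY
      have : E.card ≤ 4 := (Finset.card_le_card hY).trans hXcard.le
      have : 4 ≤ E.card := hXcard ▸ Finset.card_le_card hXE
      omega
  · intro x y
    constructor
    · intro hxy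
      exact ⟨(dgr E).ne_of_adj hxy, Or.inr hxy⟩
    · rintro ⟨hne, h1 | h1⟩
      · exact absurd h1 hne
      · exact h1

/-- **Main theorem**: a `K_{k+1}` model with small branch sets -/
theorem main : ∀ (n : ℕ) (E : Finset (Sym2 V)) (k : ℕ), E.card = n → (∀ e ∈ E, ¬ e.IsDiag) →
    ¬ Col E k → HasM E (k + 1) := by
  classical
  intro n
  induction n using Nat.strong_induction_on with
  | _ n ih =>
    intro E k hn hloop hk
    have hne : E.Nonempty := by
      rw [Finset.nonempty_iff_ne_empty]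
      rintro rfl
      exact hk ((col_zero_iff.2 rfl).mono (Finset.Subset.refl _) (Nat.zero_le _))
    by_cases hcr : ∃ e ∈ E, ¬ Col (E.erase e) k
    · obtain ⟨e, he, hek⟩ := hcr
      have hlt : (E.erase e).card < n := by
        rw [← hn]
        exact Finset.card_erase_lt_of_mem he
      exact (ih _ hlt (E.erase e) k rfl (fun f hf => hloop f (Finset.mem_of_mem_erase hf)) hek).mono
        (Finset.erase_subset _ _) (le_refl _)
    push Not at hcr
    have hcrit : Crit E k := ⟨hk, hcr⟩
    by_cases hsep : Sep E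
    · obtain ⟨X, Y, hXY, hX, hY, hnt⟩ := hsep
      have hd : Disjoint X Y := by
        rw [Finset.disjoint_left]
        intro e he he'
        exact hnt e he e he' (Tch.refl e)
      have hc : X.card + Y.card = E.card := by
        rw [← hXY, Finset.card_union_of_disjoint hd]
      have hXp := Finset.card_pos.2 hX
      have hYp := Finset.card_pos.2 hY
      -- chromatic numbers of the parts
      have hcX : ∃ m, Col X m := ⟨_, col_card X⟩
      have hcY : ∃ m, Col Y m := ⟨_, col_card Y⟩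
      have hXm := Nat.find_spec hcX
      have hYm := Nat.find_spec hcY
      have hXpos : 0 < Nat.find hcX := by
        rw [Nat.pos_iff_ne_zero]
        intro h0
        rw [h0] at hXm
        exact hX.ne_empty (col_zero_iff.1 hXm)
      have hYpos : 0 < Nat.find hcY := by
        rw [Nat.pos_iff_ne_zero]
        intro h0
        rw [h0] at hYm
        exact hY.ne_empty (col_zero_iff.1 hYm)
      have h1 := ih X.card (by omega) X (Nat.find hcX - 1) rfl
        (fun f hf => hloop f (by rw [← hXY]; exact Finset.mem_union_left _ hf))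
        (Nat.find_min hcX (by omega))
      have h2 := ih Y.card (by omega) Y (Nat.find hcY - 1) rfl
        (fun f hf => hloop f (by rw [← hXY]; exact Finset.mem_union_right _ hf))
        (Nat.find_min hcY (by omega))
      have h3 := h1.union h2 hnt
      rw [hXY] at h3
      refine h3.mono (Finset.Subset.refl _) ?_
      have h4 := hXm.union hYm
      rw [hXY] at h4
      by_contra hlt
      exact hk (h4.mono (Finset.Subset.refl _) (by omega))
    have hge := card_ge hk hsep
    rcases Nat.lt_or_ge k 2 with hk2 | hk2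
    · have hk01 : k = 0 ∨ k = 1 := by omega
      rcases hk01 with rfl | rfl
      · obtain ⟨e, he⟩ := hne
        refine ⟨{{e, e}}, ⟨?_, ?_⟩, by simp⟩
        · intro P hP
          rw [Finset.mem_singleton] at hP
          exact ⟨e, he, e, he, hP, Or.inl rfl⟩
        · intro P hP Q hQ hPQ
          rw [Finset.mem_singleton] at hP hQ
          exact absurd (hP.trans hQ.symm) hPQ
      · have hex : ∃ e ∈ E, ∃ f ∈ E, ¬ Tch e f := by
          by_contra hcon
          push Not at hcon
          exact hk (col_one hcon)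
        obtain ⟨e, he, f, hf, hef⟩ := hex
        have hef' := not_tch_ne hef
        refine ⟨{{e, e}, {f, f}}, ⟨?_, ?_⟩, ?_⟩
        · intro P hP
          rw [Finset.mem_insert, Finset.mem_singleton] at hP
          rcases hP with rfl | rfl
          · exact ⟨e, he, e, he, rfl, Or.inl rfl⟩
          · exact ⟨f, hf, f, hf, rfl, Or.inl rfl⟩
        · intro P hP Q hQ hPQ
          rw [Finset.mem_insert, Finset.mem_singleton] at hP hQ
          rcases hP with rfl | rfl <;> rcases hQ with rfl | rfl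
          · exact absurd rfl hPQ
          · refine ⟨?_, e, by simp, f, by simp, hef⟩
            simp [hef']
          · refine ⟨?_, f, by simp, e, by simp, not_tch_symm hef⟩
            simp [hef'.symm]
          · exact absurd rfl hPQ
        · rw [Finset.card_insert_of_notMem]
          · simp
          · rw [Finset.mem_singleton]
            intro h0
            have : e ∈ ({f, f} : Finset (Sym2 V)) := by rw [← h0]; simp
            simp at this
            exact hef' this
    rcases hge.eq_or_lt with heq | hlt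
    · exact hasM_small hcrit hsep hloop heq.symm
    · obtain ⟨M, hO⟩ := hcrit.exists_opt hloop (by omega)
      exact hO.hasM hk2 hsep

end Pool.Agent.H81.LG
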