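import Pool.Agent.H81.LG.Parity

/-!
# Matchings of disjoint pairs
-/

set_option autoImplicit false
set_option linter.unusedSectionVars false
set_option linter.unusedVariables false

namespace Pool.Agent.H81.LG

open Finset

variable {V : Type} [DecidableEq V]

/-- a family of pairwise disjoint two-element sets `{e, f}`, with `e`, `f` not touching members
of `E` -/
structure Mat (E : Finset (Sym2 V)) (M : Finset (Finset (Sym2 V))) : Prop where
  pair : ∀ P ∈ M, ∃ e ∈ E, ∃ f ∈ E, ¬ Tch e f ∧ P = {e, f}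
  disj : ∀ P ∈ M, ∀ Q ∈ M, P ≠ Q → Disjoint P Q

theorem Mat.subset {E : Finset (Sym2 V)} {M N : Finset (Finset (Sym2 V))} (h : Mat E M)
    (hN : N ⊆ M) : Mat E N :=
  ⟨fun P hP => h.pair P (hN hP), fun P hP Q hQ => h.disj P (hN hP) Q (hN hQ)⟩

theorem Mat.union {E : Finset (Sym2 V)} {M N : Finset (Finset (Sym2 V))} (h : Mat E M)
    (h' : Mat E N) (hd : ∀ P ∈ M, ∀ Q ∈ N, Disjoint P Q) : Mat E (M ∪ N) := by
  constructor
  · intro P hP
    rcases Finset.mem_union.1 hP with hP | hP
    · exact h.pair P hP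
    · exact h'.pair P hP
  · intro P hP Q hQ hPQ
    rcases Finset.mem_union.1 hP with hP | hP <;> rcases Finset.mem_union.1 hQ with hQ | hQ
    · exact h.disj P hP Q hQ hPQ
    · exact hd P hP Q hQ
    · exact (hd Q hQ P hP).symm
    · exact h'.disj P hP Q hQ hPQ

theorem Mat.single {E : Finset (Sym2 V)} {e f : Sym2 V} (he : e ∈ E) (hf : f ∈ E)
    (h : ¬ Tch e f) : Mat E {{e, f}} := by
  constructor
  · intro P hP
    rw [Finset.mem_singleton] at hP
    exact ⟨e, he, f, hf, h, hP⟩
  · intro P hP Q hQ hPQ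
    rw [Finset.mem_singleton] at hP hQ
    exact absurd (hP.trans hQ.symm) hPQ

theorem Mat.empty {E : Finset (Sym2 V)} : Mat E ∅ := ⟨by simp, by simp⟩

theorem Mat.eq_of_mem {E : Finset (Sym2 V)} {M : Finset (Finset (Sym2 V))} (h : Mat E M)
    {P Q : Finset (Sym2 V)} (hP : P ∈ M) (hQ : Q ∈ M) {e : Sym2 V} (heP : e ∈ P) (heQ : e ∈ Q) :
    P = Q := by
  by_contra hne
  exact Finset.disjoint_left.1 (h.disj P hP Q hQ hne) heP heQ

theorem Mat.nt {E : Finset (Sym2 V)} {M : Finset (Finset (Sym2 V))} (h : Mat E M)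
    {e f : Sym2 V} (hP : {e, f} ∈ M) : ¬ Tch e f := by
  obtain ⟨e', he', f', hf', hnt, heq⟩ := h.pair _ hP
  have h1 : e' ∈ ({e, f} : Finset (Sym2 V)) := by rw [heq]; simp
  have h2 : f' ∈ ({e, f} : Finset (Sym2 V)) := by rw [heq]; simp
  simp only [Finset.mem_insert, Finset.mem_singleton] at h1 h2
  rcases h1 with rfl | rfl <;> rcases h2 with rfl | rfl
  · exact absurd (Tch.refl _) hnt
  · exact hnt
  · exact not_tch_symm hnt
  · exact absurd (Tch.refl _) hnt

theorem Mat.sub {E : Finset (Sym2 V)} {M : Finset (Finset (Sym2 V))} (h : Mat E M)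
    {P : Finset (Sym2 V)} (hP : P ∈ M) : P ⊆ E := by
  obtain ⟨e', he', f', hf', hnt, rfl⟩ := h.pair _ hP
  intro g hg
  simp only [Finset.mem_insert, Finset.mem_singleton] at hg
  rcases hg with rfl | rfl
  · exact he'
  · exact hf'

theorem Mat.mate {E : Finset (Sym2 V)} {M : Finset (Finset (Sym2 V))} (h : Mat E M)
    {e f g : Sym2 V} (h1 : {e, f} ∈ M) (h2 : {e, g} ∈ M) : f = g := by
  have h3 := h.eq_of_mem h1 h2 (e := e) (by simp) (by simp)
  have h4 : f ∈ ({e, g} : Finset (Sym2 V)) := by rw [← h3]; simp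
  simp only [Finset.mem_insert, Finset.mem_singleton] at h4
  rcases h4 with rfl | rfl
  · exact absurd (Tch.refl _) (h.nt h1)
  · rfl

/-- the form of a pair with a given member -/
theorem Mat.form {E : Finset (Sym2 V)} {M : Finset (Finset (Sym2 V))} (h : Mat E M)
    {P : Finset (Sym2 V)} (hP : P ∈ M) {e : Sym2 V} (he : e ∈ P) :
    ∃ f ∈ E, ¬ Tch e f ∧ P = {e, f} := by
  obtain ⟨e', he', f', hf', hnt, rfl⟩ := h.pair _ hP
  simp only [Finset.mem_insert, Finset.mem_singleton] at he
  rcases he with rfl | rfl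
  · exact ⟨f', hf', hnt, rfl⟩
  · exact ⟨e', he', not_tch_symm hnt, Finset.pair_comm _ _⟩

theorem Mat.card_pair {E : Finset (Sym2 V)} {M : Finset (Finset (Sym2 V))} (h : Mat E M)
    {P : Finset (Sym2 V)} (hP : P ∈ M) : P.card = 2 := by
  obtain ⟨e', he', f', hf', hnt, rfl⟩ := h.pair _ hP
  exact Finset.card_pair (not_tch_ne hnt)

theorem Mat.nonempty {E : Finset (Sym2 V)} {M : Finset (Finset (Sym2 V))} (h : Mat E M)
    {P : Finset (Sym2 V)} (hP : P ∈ M) : P.Nonempty := by
  obtain ⟨e', he', f', hf', hnt, rfl⟩ := h.pair _ hP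
  exact ⟨e', by simp⟩

theorem no_three {u a b c : Sym2 V} (hab : ¬ Tch a b) (hac : ¬ Tch a c) (hbc : ¬ Tch b c)
    (ha : Tch u a) (hb : Tch u b) (hc : Tch u c) : False := by
  induction u using Sym2.ind with
  | _ x y =>
    obtain ⟨p, hp, hp'⟩ := ha
    obtain ⟨q, hq, hq'⟩ := hb
    obtain ⟨r, hr, hr'⟩ := hc
    rw [Sym2.mem_iff] at hp hq hr
    rcases hp with rfl | rfl <;> rcases hq with rfl | rfl <;> rcases hr with rfl | rfl
    all_goals first
      | exact hab ⟨_, hp', hq'⟩
      | exact hac ⟨_, hp', hr'⟩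
      | exact hbc ⟨_, hq', hr'⟩

/-- adding a pair -/
theorem Mat.add {E : Finset (Sym2 V)} {M : Finset (Finset (Sym2 V))} (h : Mat E M)
    {e f : Sym2 V} (he : e ∈ E) (hf : f ∈ E) (hef : ¬ Tch e f) (heM : ∀ P ∈ M, e ∉ P)
    (hfM : ∀ P ∈ M, f ∉ P) : Mat E (M ∪ {{e, f}}) ∧ (M ∪ {{e, f}}).card = M.card + 1 := by
  have hd : ∀ P ∈ M, Disjoint P {e, f} := by
    intro P hP
    rw [Finset.disjoint_left]
    intro g hg hg'
    simp only [Finset.mem_insert, Finset.mem_singleton] at hg'
    rcases hg' with rfl | rfl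
    · exact heM P hP hg
    · exact hfM P hP hg
  refine ⟨h.union (Mat.single he hf hef) ?_, ?_⟩
  · intro P hP Q hQ
    rw [Finset.mem_singleton] at hQ
    rw [hQ]
    exact hd P hP
  · rw [Finset.card_union_of_disjoint]
    · simp
    · rw [Finset.disjoint_singleton_right]
      intro h1
      exact heM _ h1 (by simp)

/-- a matching with at most `k` pairs can be enlarged -/
theorem Crit.augment {E : Finset (Sym2 V)} {k : ℕ} (h : Crit E k) (hcard : 2 * k + 2 ≤ E.card)
    {M : Finset (Finset (Sym2 V))} (hM : Mat E M) (hMk : M.card ≤ k) :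
    ∃ M', Mat E M' ∧ M'.card = M.card + 1 := by
  classical
  by_contra hno
  push Not at hno
  have h1 : (M.biUnion id).card ≤ M.card * 2 := by
    apply Finset.card_biUnion_le_card_mul
    intro P hP
    exact (hM.card_pair hP).le
  have h2 : 1 < (E \ M.biUnion id).card := by
    have := Finset.le_card_sdiff (M.biUnion id) E
    omega
  obtain ⟨u, hu, w, hw, huw⟩ := Finset.one_lt_card.1 h2
  have hfree : ∀ g ∈ E \ M.biUnion id, g ∈ E ∧ ∀ P ∈ M, g ∉ P := by
    intro g hg
    rw [Finset.mem_sdiff, Finset.mem_biUnion] at hg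
    refine ⟨hg.1, fun P hP hgP => hg.2 ⟨P, hP, hgP⟩⟩
  have aug1 : ∀ g ∈ E \ M.biUnion id, ∀ j ∈ E \ M.biUnion id, Tch g j := by
    intro g hg j hj
    by_contra hn
    obtain ⟨a1, a2⟩ := hM.add (hfree g hg).1 (hfree j hj).1 hn (hfree g hg).2 (hfree j hj).2
    exact hno _ a1 a2
  have aug1' : ∀ g ∈ E \ M.biUnion id, ∀ n ∈ E, ¬ Tch g n → ∃ P ∈ M, n ∈ P := by
    intro g hg n hn hgn
    by_contra hcon
    push Not at hcon
    refine hgn (aug1 g hg n ?_)
    rw [Finset.mem_sdiff, Finset.mem_biUnion]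
    exact ⟨hn, fun ⟨P, hP, hnP⟩ => hcon P hP hnP⟩
  have aug2 : ∀ g ∈ E \ M.biUnion id, ∀ j ∈ E \ M.biUnion id, g ≠ j → ∀ a b : Sym2 V,
      {a, b} ∈ M → ¬ Tch g a → ¬ Tch j b → False := by
    intro g hg j hj hgj a b hab hga hjb
    have hE1 : Mat E (M.erase {a, b}) := hM.subset (Finset.erase_subset _ _)
    have haE : a ∈ E := hM.sub hab (by simp)
    have hbE : b ∈ E := hM.sub hab (by simp)
    have hne : a ≠ b := not_tch_ne (hM.nt hab)
    have haM : ∀ P ∈ M.erase {a, b}, a ∉ P := by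
      intro P hP haP
      exact Finset.ne_of_mem_erase hP (hM.eq_of_mem (Finset.mem_of_mem_erase hP) hab haP (by simp))
    have hbM : ∀ P ∈ M.erase {a, b}, b ∉ P := by
      intro P hP hbP
      exact Finset.ne_of_mem_erase hP (hM.eq_of_mem (Finset.mem_of_mem_erase hP) hab hbP (by simp))
    have hgM : ∀ P ∈ M.erase {a, b}, g ∉ P := fun P hP => (hfree g hg).2 P (Finset.mem_of_mem_erase hP)
    have hjM : ∀ P ∈ M.erase {a, b}, j ∉ P := fun P hP => (hfree j hj).2 P (Finset.mem_of_mem_erase hP)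
    obtain ⟨c1, c2⟩ := hE1.add (hfree g hg).1 haE hga hgM haM
    have hga' : g ≠ b := fun h0 => (hfree g hg).2 _ hab (by rw [h0]; simp)
    have hja' : j ≠ a := fun h0 => (hfree j hj).2 _ hab (by rw [h0]; simp)
    obtain ⟨d1, d2⟩ := c1.add (hfree j hj).1 hbE hjb
      (by
        intro P hP
        rcases Finset.mem_union.1 hP with hP | hP
        · exact hjM P hP
        · rw [Finset.mem_singleton] at hP
          rw [hP]
          simp only [Finset.mem_insert, Finset.mem_singleton, not_or]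
          exact ⟨hgj.symm, hja'⟩)
      (by
        intro P hP
        rcases Finset.mem_union.1 hP with hP | hP
        · exact hbM P hP
        · rw [Finset.mem_singleton] at hP
          rw [hP]
          simp only [Finset.mem_insert, Finset.mem_singleton, not_or]
          exact ⟨hga'.symm, hne.symm⟩)
    refine hno _ d1 ?_
    rw [d2, c2, Finset.card_erase_of_mem hab]
    have : 0 < M.card := Finset.card_pos.2 ⟨_, hab⟩
    omega
  have hone : ∀ a b : Sym2 V, {a, b} ∈ M → ¬ Tch w a → Tch w b := by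
    intro a b hab hwa
    by_contra hwb
    have hua : Tch u a := by
      by_contra hn
      exact aug2 u hu w hw huw a b hab hn hwb
    have hub : Tch u b := by
      by_contra hn
      exact aug2 u hu w hw huw b a (by rw [Finset.pair_comm]; exact hab) hn hwa
    exact no_three (hM.nt hab) (not_tch_symm hwa) (not_tch_symm hwb) hua hub (aug1 u hu w hw)
  obtain ⟨n, hn, hun, hwn⟩ := h.not_dom (hfree u hu).1 (hfree w hw).1 huw (aug1 u hu w hw)
  obtain ⟨P, hP, hnP⟩ := aug1' u hu n hn hun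
  obtain ⟨b, hb, hnb, rfl⟩ := hM.form hP hnP
  have hwb : Tch w b := by
    by_contra hwb
    exact aug2 u hu w hw huw n b hP hun hwb
  have hdeg := h.deg (hfree w hw).1 (E.filter (fun n => ¬ Tch w n))
    (fun n hn h0 => Finset.mem_filter.2 ⟨hn, h0⟩)
  have hle : (E.filter (fun n => ¬ Tch w n)).card ≤ (M.erase {n, b}).card * 1 := by
    refine (Finset.card_le_card (t := (M.erase {n, b}).biUnion
      (fun P => P ∩ E.filter (fun n => ¬ Tch w n))) ?_).trans
      (Finset.card_biUnion_le_card_mul _ _ _ ?_)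
    · intro n' hn'
      rw [Finset.mem_biUnion]
      obtain ⟨hn'1, hn'2⟩ := Finset.mem_filter.1 hn'
      obtain ⟨Q, hQ, hnQ⟩ := aug1' w hw n' hn'1 hn'2
      refine ⟨Q, Finset.mem_erase.2 ⟨?_, hQ⟩, Finset.mem_inter.2 ⟨hnQ, hn'⟩⟩
      rintro rfl
      simp only [Finset.mem_insert, Finset.mem_singleton] at hnQ
      rcases hnQ with rfl | rfl
      · exact hn'2 hwn
      · exact hn'2 hwb
    · intro Q hQ
      rw [Finset.card_le_one]
      intro x hx y hy
      rw [Finset.mem_inter, Finset.mem_filter] at hx hy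
      by_contra hxy
      obtain ⟨z, hz, hxz, rfl⟩ := hM.form (Finset.mem_of_mem_erase hQ) hx.1
      have hyz : y = z := by
        have := hy.1
        simp only [Finset.mem_insert, Finset.mem_singleton] at this
        rcases this with h0 | h0
        · exact absurd h0.symm hxy
        · exact h0
      subst hyz
      exact hy.2.2 (hone x y (Finset.mem_of_mem_erase hQ) hx.2.2)
  rw [Finset.card_erase_of_mem hP] at hle
  have : 0 < M.card := Finset.card_pos.2 ⟨_, hP⟩
  omega

theorem Crit.exists_mat {E : Finset (Sym2 V)} {k : ℕ} (h : Crit E k)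
    (hcard : 2 * k + 2 ≤ E.card) : ∃ M, Mat E M ∧ M.card = k + 1 := by
  have : ∀ n ≤ k + 1, ∃ M, Mat E M ∧ M.card = n := by
    intro n
    induction n with
    | zero => exact fun _ => ⟨∅, Mat.empty, rfl⟩
    | succ n ih =>
      intro hn
      obtain ⟨M, hM, hMn⟩ := ih (by omega)
      obtain ⟨M', hM', hMn'⟩ := h.augment hcard hM (by omega)
      exact ⟨M', hM', by omega⟩
  exact this (k + 1) (le_refl _)

end Pool.Agent.H81.LG
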