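import Pool.Agent.H81.LG.Final

/-!
# An optimal matching has no two pairs with the same span: end of the proof
-/

set_option autoImplicit false
set_option linter.unusedSectionVars false
set_option linter.unusedVariables false
set_option linter.unusedSimpArgs false

namespace Pool.Agent.H81.LG

open Finset

variable {V : Type} [DecidableEq V]
variable {E : Finset (Sym2 V)} {k : ℕ} {M : Finset (Finset (Sym2 V))} {a b c d x y : V}

theorem cases4 (a b c d u : V) : u = a ∨ u = b ∨ u = c ∨ u = d ∨ Out a b c d u := by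
  by_cases h1 : u = a
  · exact Or.inl h1
  by_cases h2 : u = b
  · exact Or.inr (Or.inl h2)
  by_cases h3 : u = c
  · exact Or.inr (Or.inr (Or.inl h3))
  by_cases h4 : u = d
  · exact Or.inr (Or.inr (Or.inr (Or.inl h4)))
  exact Or.inr (Or.inr (Or.inr (Or.inr ⟨h1, h2, h3, h4⟩)))

theorem outE_mk {u w : V} (hu : Out a b c d u) (hw : Out a b c d w) : OutE a b c d s(u, w) := by
  intro v hv
  rcases Sym2.mem_iff.1 hv with rfl | rfl
  · exact hu
  · exact hw

/-- the mate of a pair `ax` is the diagonal `bd` -/
theorem Opt.foot_mate (hO : Opt E k M) (hC : Cyc M a b c d) (hx : Out a b c d x) {f : Sym2 V}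
    (hT : {s(a, x), f} ∈ M) : f = s(b, d) := by
  have hnt := hO.mat.nt hT
  have hfE : f ∈ E := hO.mat.sub hT (by simp)
  have hT' : {f, s(a, x)} ∈ M := by rw [Finset.pair_comm]; exact hT
  induction f using Sym2.ind with
  | _ u w =>
    rw [tch_mk] at hnt
    push Not at hnt
    obtain ⟨au, aw, xu, xw⟩ := hnt
    have huw : u ≠ w := by
      rintro rfl
      exact hO.loop _ hfE (by simp)
    rcases cases4 a b c d u with rfl | rfl | rfl | rfl | hu
    · exact absurd rfl au
    · rcases cases4 a u c d w with rfl | rfl | rfl | rfl | hw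
      · exact absurd rfl aw
      · exact absurd rfl huw
      · exact absurd hx (fun hx => hC.no hO.mat (by simp) hT' (x := x) (by simp) hx)
      · rfl
      · exact absurd hT (fun h => hO.noR hC hx hw h)
    · rcases cases4 a b u d w with rfl | rfl | rfl | rfl | hw
      · exact absurd rfl aw
      · exact absurd hx (fun hx => hC.no hO.mat (by simp [Sym2.eq_iff]) hT' (x := x) (by simp) hx)
      · exact absurd rfl huw
      · exact absurd hx (fun hx => hC.no hO.mat (by simp [Sym2.eq_iff]) hT' (x := x) (by simp) hx)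
      · exact absurd hT (fun h => hO.opposite hC hx hw h)
    · rcases cases4 a b c u w with rfl | rfl | rfl | rfl | hw
      · exact absurd rfl aw
      · exact Sym2.eq_swap
      · exact absurd hx (fun hx => hC.no hO.mat (by simp [Sym2.eq_iff]) hT' (x := x) (by simp) hx)
      · exact absurd rfl huw
      · exact absurd hT' (fun h => hO.noR hC.rot.rot.rot hw.rot.rot.rot hx.rot.rot.rot h)
    · rcases cases4 a b c d w with rfl | rfl | rfl | rfl | hw
      · exact absurd rfl aw
      · rw [Sym2.eq_swap (a := u), Finset.pair_comm] at hT'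
        rw [Sym2.eq_swap (a := u)] at hT
        exact absurd hT (fun h => hO.noR hC hx hu h)
      · rw [Sym2.eq_swap (a := u)] at hT
        exact absurd hT (fun h => hO.opposite hC hx hu h)
      · rw [Sym2.eq_swap (a := u)] at hT'
        exact absurd hT' (fun h => hO.noR hC.rot.rot.rot hu.rot.rot.rot hx.rot.rot.rot h)
      · exact absurd hT (fun h => hO.no_type1 hC hx (outE_mk hu hw) h)

/-- both points of `e` are among `a, b, c, d` -/
def InQ (a b c d : V) (e : Sym2 V) : Prop := ∀ v ∈ e, v = a ∨ v = b ∨ v = c ∨ v = d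

theorem InQ.rot {e : Sym2 V} (h : InQ a b c d e) : InQ b c d a e := by
  intro v hv
  have := h v hv
  tauto

theorem inQ_cases {e : Sym2 V} (he : ¬ e.IsDiag) (h : InQ a b c d e) :
    (e = s(a, b) ∨ e = s(b, c) ∨ e = s(c, d) ∨ e = s(d, a)) ∨ e = s(a, c) ∨ e = s(b, d) := by
  induction e using Sym2.ind with
  | _ u w =>
    have hu := h u (by simp)
    have hw := h w (by simp)
    have huw : u ≠ w := by
      rintro rfl
      exact he (by simp)
    rcases hu with rfl | rfl | rfl | rfl <;> rcases hw with rfl | rfl | rfl | rfl <;>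
      first
      | exact absurd rfl huw
      | simp [Sym2.eq_iff]

/-- a used pair with a foot: its mate is a diagonal -/
theorem Opt.foot_class (hO : Opt E k M) (hC : Cyc M a b c d) (hx : Out a b c d x)
    (he : s(a, x) ∈ E) : {s(b, d), s(a, x)} ∈ M := by
  by_cases h : ∃ T ∈ M, s(a, x) ∈ T
  · obtain ⟨T, hT, heT⟩ := h
    obtain ⟨f, hf, hef, rfl⟩ := hO.mat.form hT heT
    have := hO.foot_mate hC hx hT
    rw [this, Finset.pair_comm] at hT
    exact hT
  · push Not at h
    exact (hO.unused1 hC hx he h).elim

/-- classification of the members of `E` -/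
theorem Opt.classE (hO : Opt E k M) (hC : Cyc M a b c d) {e : Sym2 V} (he : e ∈ E) :
    InQ a b c d e ∨ {s(a, c), e} ∈ M ∨ {s(b, d), e} ∈ M := by
  have foot : ∀ u w : V, (u = a ∨ u = b ∨ u = c ∨ u = d) → Out a b c d w → s(u, w) ∈ E →
      {s(a, c), s(u, w)} ∈ M ∨ {s(b, d), s(u, w)} ∈ M := by
    intro u w hu hw he
    rcases hu with rfl | rfl | rfl | rfl
    · exact Or.inr (hO.foot_class hC hw he)
    · left
      have := hO.foot_class hC.rot hw.rot he
      rwa [Sym2.eq_swap (a := c)] at this
    · right
      have := hO.foot_class hC.rot.rot hw.rot.rot he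
      rwa [Sym2.eq_swap (a := d)] at this
    · left
      exact hO.foot_class hC.rot.rot.rot hw.rot.rot.rot he
  induction e using Sym2.ind with
  | _ u w =>
    by_cases hu : u = a ∨ u = b ∨ u = c ∨ u = d
    · by_cases hw : w = a ∨ w = b ∨ w = c ∨ w = d
      · left
        intro v hv
        rcases Sym2.mem_iff.1 hv with rfl | rfl
        · exact hu
        · exact hw
      · right
        push Not at hw
        exact foot u w hu ⟨hw.1, hw.2.1, hw.2.2.1, hw.2.2.2⟩ he
    · by_cases hw : w = a ∨ w = b ∨ w = c ∨ w = d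
      · right
        push Not at hu
        rw [Sym2.eq_swap (a := u) (b := w)] at he ⊢
        exact foot w u hw ⟨hu.1, hu.2.1, hu.2.2.1, hu.2.2.2⟩ he
      · right
        push Not at hu hw
        have hu' : Out a b c d u := ⟨hu.1, hu.2.1, hu.2.2.1, hu.2.2.2⟩
        have hw' : Out a b c d w := ⟨hw.1, hw.2.1, hw.2.2.1, hw.2.2.2⟩
        by_cases h : ∃ T ∈ M, s(u, w) ∈ T
        · obtain ⟨T, hT, heT⟩ := h
          obtain ⟨f, hf, hef, rfl⟩ := hO.mat.form hT heT
          have hT' : {f, s(u, w)} ∈ M := by rw [Finset.pair_comm]; exact hT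
          -- a foot of `f` is impossible
          have hfoot : ∀ p q : V, s(p, q) = f → (p = a ∨ p = b ∨ p = c ∨ p = d) →
              Out a b c d q → False := by
            intro p q hpq hp hq
            subst hpq
            have key : ∀ r t : V, (r = a ∨ r = b ∨ r = c ∨ r = d) → s(u, w) = s(r, t) → False := by
              intro r t hr h0
              rcases Sym2.eq_iff.1 h0 with ⟨h1, _⟩ | ⟨_, h1⟩
              · subst h1
                exact absurd hr (by push Not; exact ⟨hu'.na, hu'.nb, hu'.nc, hu'.nd⟩)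
              · subst h1
                exact absurd hr (by push Not; exact ⟨hw'.na, hw'.nb, hw'.nc, hw'.nd⟩)
            rcases hp with rfl | rfl | rfl | rfl
            · exact key b d (by simp) (hO.foot_mate hC hq hT')
            · exact key c a (by simp) (hO.foot_mate hC.rot hq.rot hT')
            · exact key d b (by simp) (hO.foot_mate hC.rot.rot hq.rot.rot hT')
            · exact key a c (by simp) (hO.foot_mate hC.rot.rot.rot hq.rot.rot.rot hT')
          have hfl := hO.loop f hf
          induction f using Sym2.ind with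
          | _ p q =>
            by_cases hp : p = a ∨ p = b ∨ p = c ∨ p = d
            · by_cases hq : q = a ∨ q = b ∨ q = c ∨ q = d
              · have hin : InQ a b c d s(p, q) := by
                  intro v hv
                  rcases Sym2.mem_iff.1 hv with rfl | rfl
                  · exact hp
                  · exact hq
                rcases inQ_cases hfl hin with h1 | h1 | h1
                · exact absurd hu' (fun hx => hC.no hO.mat h1 hT' (x := u) (by simp) hx)
                · left
                  rw [← h1]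
                  exact hT'
                · right
                  rw [← h1]
                  exact hT'
              · push Not at hq
                exact absurd (hfoot p q rfl hp ⟨hq.1, hq.2.1, hq.2.2.1, hq.2.2.2⟩) id
            · push Not at hp
              have hp' : Out a b c d p := ⟨hp.1, hp.2.1, hp.2.2.1, hp.2.2.2⟩
              by_cases hq : q = a ∨ q = b ∨ q = c ∨ q = d
              · exact absurd (hfoot q p Sym2.eq_swap hq hp') id
              · push Not at hq
                exact absurd hT (fun h => hO.no_type0 hC (outE_mk hu' hw')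
                  (outE_mk hp' ⟨hq.1, hq.2.1, hq.2.2.1, hq.2.2.2⟩) h)
        · push Not at h
          exact absurd he (fun he => hO.no_unused0 hC (outE_mk hu' hw') he h)

/-- classification of the members of `M` -/
theorem Opt.classM (hO : Opt E k M) (hC : Cyc M a b c d) {T : Finset (Sym2 V)} (hT : T ∈ M) :
    T = {s(a, b), s(c, d)} ∨ T = {s(b, c), s(d, a)} ∨ s(a, c) ∈ T ∨ s(b, d) ∈ T := by
  obtain ⟨e, he⟩ := hO.mat.nonempty hT
  have heE := hO.mat.sub hT he
  rcases hO.classE hC heE with h | h | h
  · rcases inQ_cases (hO.loop e heE) h with (h1 | h1 | h1 | h1) | h1 | h1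
    · left
      exact hO.mat.eq_of_mem hT hC.P1 he (by rw [h1]; simp)
    · right; left
      exact hO.mat.eq_of_mem hT hC.P2 he (by rw [h1]; simp)
    · left
      exact hO.mat.eq_of_mem hT hC.P1 he (by rw [h1]; simp)
    · right; left
      exact hO.mat.eq_of_mem hT hC.P2 he (by rw [h1]; simp)
    · right; right; left
      rw [← h1]
      exact he
    · right; right; right
      rw [← h1]
      exact he
  · right; right; left
    rw [hO.mat.eq_of_mem hT h he (by simp)]
    simp
  · right; right; right
    rw [hO.mat.eq_of_mem hT h he (by simp)]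
    simp

/-- the mate of `ac` does not contain `b` -/
theorem Opt.last1 (hO : Opt E k M) (hk : 2 ≤ k) (hC : Cyc M a b c d) (hx : Out a b c d x)
    (hT : {s(a, c), s(b, x)} ∈ M) : False := by
  classical
  obtain ⟨⟨ab, ac, ad, bc, bd, cd⟩, ⟨ba, ca, da, cb, db, dc⟩⟩ := hC.facts
  obtain ⟨⟨xa, xb, xc, xd⟩, ⟨ax, bx, cx, dx⟩⟩ := hx.facts
  have htri : ∀ e ∈ E, ∀ f ∈ E, (e = s(a, c) ∨ e = s(c, d) ∨ e = s(d, a)) →
      (f = s(a, c) ∨ f = s(c, d) ∨ f = s(d, a)) → Tch e f := by
    intro e _ f _ he hf
    rcases he with rfl | rfl | rfl <;> rcases hf with rfl | rfl | rfl <;> simp [tch_mk]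
  by_cases hB : ∃ f, {s(b, d), f} ∈ M
  · obtain ⟨f, hf⟩ := hB
    have hk3 : 3 ≤ k := by
      have h1 := hC.ne12
      have h2 := hC.not_mem_out hO.mat hT (e := s(b, x)) (by simp) (x := x) (by simp) hx
      have h3 : ({s(b, d), f} : Finset (Sym2 V)) ≠ {s(a, b), s(c, d)} := by
        intro h0
        have : s(b, d) ∈ ({s(a, b), s(c, d)} : Finset (Sym2 V)) := by rw [← h0]; simp
        simp [Sym2.eq_iff, *] at this
      have h4 : ({s(b, d), f} : Finset (Sym2 V)) ≠ {s(b, c), s(d, a)} := by
        intro h0
        have : s(b, d) ∈ ({s(b, c), s(d, a)} : Finset (Sym2 V)) := by rw [← h0]; simp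
        simp [Sym2.eq_iff, *] at this
      have h5 : ({s(b, d), f} : Finset (Sym2 V)) ≠ {s(a, c), s(b, x)} := by
        intro h0
        have : s(b, d) ∈ ({s(a, c), s(b, x)} : Finset (Sym2 V)) := by rw [← h0]; simp
        simp [Sym2.eq_iff, *] at this
      have hcard : ({{s(a, b), s(c, d)}, {s(b, c), s(d, a)}, {s(a, c), s(b, x)},
          {s(b, d), f}} : Finset (Finset (Sym2 V))).card = 4 := by
        rw [Finset.card_insert_of_notMem, Finset.card_insert_of_notMem,
          Finset.card_insert_of_notMem, Finset.card_singleton]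
        · rw [Finset.mem_singleton]
          exact h5.symm
        · rw [Finset.mem_insert, Finset.mem_singleton, not_or]
          exact ⟨h2.2.symm, h4.symm⟩
        · rw [Finset.mem_insert, Finset.mem_insert, Finset.mem_singleton, not_or, not_or]
          exact ⟨h1, h2.1.symm, h3.symm⟩
      have hsub : ({{s(a, b), s(c, d)}, {s(b, c), s(d, a)}, {s(a, c), s(b, x)},
          {s(b, d), f}} : Finset (Finset (Sym2 V))) ⊆ M := by
        intro T hT'
        simp only [Finset.mem_insert, Finset.mem_singleton] at hT'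
        rcases hT' with rfl | rfl | rfl | rfl
        · exact hC.P1
        · exact hC.P2
        · exact hT
        · exact hf
      have := Finset.card_le_card hsub
      rw [hcard, hO.card] at this
      omega
    refine hO.ncol ((col_cover [fun e => b ∈ e, fun e => e = s(a, c) ∨ e = s(c, d) ∨ e = s(d, a),
      fun e => e = f] ?_ ?_).mono (Finset.Subset.refl _) hk3)
    · intro P hP
      simp only [List.mem_cons, List.not_mem_nil, or_false] at hP
      rcases hP with rfl | rfl | rfl
      · intro e _ g _ h1 h2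
        exact ⟨b, h1, h2⟩
      · exact htri
      · intro e _ g _ h1 h2
        rw [h1, h2]
        exact Tch.refl _
    · intro e he
      rcases hO.classE hC he with h | h | h
      · rcases inQ_cases (hO.loop e he) h with (h1 | h1 | h1 | h1) | h1 | h1
        · exact ⟨fun e => b ∈ e, by simp, by rw [h1]; simp⟩
        · exact ⟨fun e => b ∈ e, by simp, by rw [h1]; simp⟩
        · exact ⟨fun e => e = s(a, c) ∨ e = s(c, d) ∨ e = s(d, a), by simp, Or.inr (Or.inl h1)⟩
        · exact ⟨fun e => e = s(a, c) ∨ e = s(c, d) ∨ e = s(d, a), by simp, Or.inr (Or.inr h1)⟩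
        · exact ⟨fun e => e = s(a, c) ∨ e = s(c, d) ∨ e = s(d, a), by simp, Or.inl h1⟩
        · exact ⟨fun e => b ∈ e, by simp, by rw [h1]; simp⟩
      · have := hO.mat.mate h hT
        exact ⟨fun e => b ∈ e, by simp, by rw [this]; simp⟩
      · have := hO.mat.mate h hf
        exact ⟨fun e => e = f, by simp, this⟩
  · refine hO.ncol ((col_cover [fun e => b ∈ e, fun e => e = s(a, c) ∨ e = s(c, d) ∨ e = s(d, a)]
      ?_ ?_).mono (Finset.Subset.refl _) hk)
    · intro P hP
      simp only [List.mem_cons, List.not_mem_nil, or_false] at hP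
      rcases hP with rfl | rfl
      · intro e _ g _ h1 h2
        exact ⟨b, h1, h2⟩
      · exact htri
    · intro e he
      rcases hO.classE hC he with h | h | h
      · rcases inQ_cases (hO.loop e he) h with (h1 | h1 | h1 | h1) | h1 | h1
        · exact ⟨fun e => b ∈ e, by simp, by rw [h1]; simp⟩
        · exact ⟨fun e => b ∈ e, by simp, by rw [h1]; simp⟩
        · exact ⟨fun e => e = s(a, c) ∨ e = s(c, d) ∨ e = s(d, a), by simp, Or.inr (Or.inl h1)⟩
        · exact ⟨fun e => e = s(a, c) ∨ e = s(c, d) ∨ e = s(d, a), by simp, Or.inr (Or.inr h1)⟩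
        · exact ⟨fun e => e = s(a, c) ∨ e = s(c, d) ∨ e = s(d, a), by simp, Or.inl h1⟩
        · exact ⟨fun e => b ∈ e, by simp, by rw [h1]; simp⟩
      · have := hO.mat.mate h hT
        exact ⟨fun e => b ∈ e, by simp, by rw [this]; simp⟩
      · exact absurd ⟨e, h⟩ hB

/-- the two diagonals are not paired -/
theorem Opt.last2 (hO : Opt E k M) (hk : 2 ≤ k) (hC : Cyc M a b c d)
    (hT : {s(a, c), s(b, d)} ∈ M) : False := by
  have hT' : {s(b, d), s(a, c)} ∈ M := by rw [Finset.pair_comm]; exact hT
  have hall : ∀ e ∈ E, InQ a b c d e := by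
    intro e he
    rcases hO.classE hC he with h | h | h
    · exact h
    · rw [hO.mat.mate h hT]
      intro v hv
      rcases Sym2.mem_iff.1 hv with rfl | rfl <;> simp
    · rw [hO.mat.mate h hT']
      intro v hv
      rcases Sym2.mem_iff.1 hv with rfl | rfl <;> simp
  refine hO.ncol ((col_cover [fun e => a ∈ e, fun e => e = s(b, c) ∨ e = s(c, d) ∨ e = s(b, d)]
    ?_ ?_).mono (Finset.Subset.refl _) hk)
  · intro P hP
    simp only [List.mem_cons, List.not_mem_nil, or_false] at hP
    rcases hP with rfl | rfl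
    · intro e _ g _ h1 h2
      exact ⟨a, h1, h2⟩
    · intro e _ f _ he hf
      rcases he with rfl | rfl | rfl <;> rcases hf with rfl | rfl | rfl <;> simp [tch_mk]
  · intro e he
    rcases inQ_cases (hO.loop e he) (hall e he) with (h1 | h1 | h1 | h1) | h1 | h1
    · exact ⟨fun e => a ∈ e, by simp, by rw [h1]; simp⟩
    · exact ⟨fun e => e = s(b, c) ∨ e = s(c, d) ∨ e = s(b, d), by simp, Or.inl h1⟩
    · exact ⟨fun e => e = s(b, c) ∨ e = s(c, d) ∨ e = s(b, d), by simp, Or.inr (Or.inl h1)⟩
    · exact ⟨fun e => a ∈ e, by simp, by rw [h1]; simp⟩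
    · exact ⟨fun e => a ∈ e, by simp, by rw [h1]; simp⟩
    · exact ⟨fun e => e = s(b, c) ∨ e = s(c, d) ∨ e = s(b, d), by simp, Or.inr (Or.inr h1)⟩

/-- the mate of `ac` is off the cycle -/
theorem Opt.last3 (hO : Opt E k M) (hk : 2 ≤ k) (hC : Cyc M a b c d) {e : Sym2 V}
    (hT : {s(a, c), e} ∈ M) : OutE a b c d e := by
  obtain ⟨⟨ab, ac, ad, bc, bd, cd⟩, ⟨ba, ca, da, cb, db, dc⟩⟩ := hC.facts
  have hnt := hO.mat.nt hT
  have heE : e ∈ E := hO.mat.sub hT (by simp)
  induction e using Sym2.ind with
  | _ u w =>
    rw [tch_mk] at hnt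
    push Not at hnt
    obtain ⟨au, aw, cu, cw⟩ := hnt
    have huw : u ≠ w := by
      rintro rfl
      exact hO.loop _ heE (by simp)
    have key : ∀ u w : V, a ≠ u → a ≠ w → c ≠ u → c ≠ w → u ≠ w → {s(a, c), s(u, w)} ∈ M →
        Out a b c d u := by
      intro u w au aw cu cw huw hT
      refine ⟨au.symm, ?_, cu.symm, ?_⟩
      · rintro rfl
        by_cases hwd : w = d
        · subst hwd
          exact hO.last2 hk hC hT
        · exact hO.last1 hk hC ⟨aw.symm, huw.symm, cw.symm, hwd⟩ hT
      · rintro rfl
        by_cases hwb : w = b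
        · subst hwb
          rw [Sym2.eq_swap (a := u)] at hT
          exact hO.last2 hk hC hT
        · rw [Sym2.eq_swap (a := a)] at hT
          exact hO.last1 hk hC.rot.rot ⟨cw.symm, huw.symm, aw.symm, hwb⟩ hT
    intro v hv
    rcases Sym2.mem_iff.1 hv with rfl | rfl
    · exact key v w au aw cu cw huw hT
    · rw [Sym2.eq_swap (a := u)] at hT
      exact key v u aw au cw cu huw.symm hT

theorem Opt.no_cyc (hO : Opt E k M) (hk : 2 ≤ k) (hns : ¬ Sep E) (hC : Cyc M a b c d) :
    False := by
  classical
  have hac : ∀ e, {s(a, c), e} ∈ M → OutE a b c d e := fun e h => hO.last3 hk hC h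
  have hbd : ∀ e, {s(b, d), e} ∈ M → OutE a b c d e := by
    intro e h
    have := hO.last3 hk hC.rot h
    exact this.rot.rot.rot
  -- some third pair
  have hex : ∃ T ∈ M, T ≠ {s(a, b), s(c, d)} ∧ T ≠ {s(b, c), s(d, a)} := by
    by_contra hcon
    push Not at hcon
    have hsub : M ⊆ {{s(a, b), s(c, d)}, {s(b, c), s(d, a)}} := by
      intro T hT
      by_cases h : T = {s(a, b), s(c, d)}
      · simp [h]
      · simp [hcon T hT h]
    have := Finset.card_le_card hsub
    rw [hO.card] at this
    have h2 : ({{s(a, b), s(c, d)}, {s(b, c), s(d, a)}} : Finset (Finset (Sym2 V))).card ≤ 2 :=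
      Finset.card_le_two
    omega
  obtain ⟨T, hT, hT1, hT2⟩ := hex
  have hout : ∃ e ∈ E, OutE a b c d e := by
    rcases hO.classM hC hT with h | h | h | h
    · exact absurd h hT1
    · exact absurd h hT2
    · obtain ⟨f, hf, _, rfl⟩ := hO.mat.form hT h
      exact ⟨f, hf, hac f hT⟩
    · obtain ⟨f, hf, _, rfl⟩ := hO.mat.form hT h
      exact ⟨f, hf, hbd f hT⟩
  obtain ⟨e₀, he₀, hout₀⟩ := hout
  apply hns
  refine ⟨E.filter (fun e => InQ a b c d e), E.filter (fun e => ¬ InQ a b c d e),
    Finset.filter_union_filter_not_eq _ _, ⟨s(a, b), ?_⟩, ⟨e₀, ?_⟩, ?_⟩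
  · rw [Finset.mem_filter]
    refine ⟨hO.mat.sub hC.P1 (by simp), ?_⟩
    intro v hv
    rcases Sym2.mem_iff.1 hv with rfl | rfl <;> simp
  · rw [Finset.mem_filter]
    refine ⟨he₀, ?_⟩
    intro h
    obtain ⟨v, hv⟩ : ∃ v, v ∈ e₀ := by
      induction e₀ using Sym2.ind with
      | _ x y => exact ⟨x, by simp⟩
    have h1 := hout₀ v hv
    have h2 := h v hv
    rcases h2 with h2 | h2 | h2 | h2
    · exact h1.na h2
    · exact h1.nb h2
    · exact h1.nc h2
    · exact h1.nd h2
  · intro e he f hf ht
    rw [Finset.mem_filter] at he hf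
    have hfo : OutE a b c d f := by
      rcases hO.classE hC hf.1 with h | h | h
      · exact absurd h hf.2
      · exact hac f h
      · exact hbd f h
    obtain ⟨v, hve, hvf⟩ := ht
    have h1 := hfo v hvf
    have h2 := he.2 v hve
    rcases h2 with h2 | h2 | h2 | h2
    · exact h1.na h2
    · exact h1.nb h2
    · exact h1.nc h2
    · exact h1.nd h2

end Pool.Agent.H81.LG
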