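import Pool.Agent.H81.LG.Bridge

/-!
# Ownership functions and their parities
-/

set_option autoImplicit false
set_option linter.unusedSectionVars false
set_option linter.unusedVariables false

namespace Pool.Agent.H81.LG

open Finset Relation

variable {V : Type} [DecidableEq V]

/-- `σ` chooses an end of every pair of `E` -/
def Own (E : Finset (Sym2 V)) (σ : Sym2 V → V) : Prop := ∀ e ∈ E, σ e ∈ e

/-- the number of pairs owned by `z` -/
def cnt (E : Finset (Sym2 V)) (σ : Sym2 V → V) (z : V) : ℕ := (E.filter (fun e => σ e = z)).card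

/-- indicator -/
def ind (z x : V) : ZMod 2 := if z = x then 1 else 0

theorem ind_add_self (z x : V) : ind z x + ind z x = 0 := CharTwo.add_self_eq_zero _

theorem cnt_erase {E : Finset (Sym2 V)} {e : Sym2 V} (he : e ∈ E) (σ : Sym2 V → V) (z : V) :
    cnt E σ z = cnt (E.erase e) σ z + if σ e = z then 1 else 0 := by
  unfold cnt
  conv_lhs => rw [← Finset.insert_erase he]
  rw [Finset.filter_insert]
  split_ifs with h
  · rw [Finset.card_insert_of_notMem (by simp)]
  · simp

theorem cnt_congr {E : Finset (Sym2 V)} {σ τ : Sym2 V → V} (h : ∀ e ∈ E, σ e = τ e) (z : V) :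
    cnt E σ z = cnt E τ z := by
  unfold cnt
  congr 1
  apply Finset.filter_congr
  intro e he
  rw [h e he]

theorem flip_one {E : Finset (Sym2 V)} {σ : Sym2 V → V} (hσ : Own E σ) {x y : V} (hxy : x ≠ y)
    (he : s(x, y) ∈ E) : ∃ τ : Sym2 V → V, Own E τ ∧ (∀ f, f ≠ s(x, y) → τ f = σ f) ∧
      τ s(x, y) ≠ σ s(x, y) ∧
      ∀ z, (cnt E τ z : ZMod 2) = (cnt E σ z : ZMod 2) + (ind z x + ind z y) := by
  have hs : σ s(x, y) = x ∨ σ s(x, y) = y := by
    have := hσ _ he
    rwa [Sym2.mem_iff] at this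
  refine ⟨Function.update σ s(x, y) (if σ s(x, y) = x then y else x), ?_, ?_, ?_, ?_⟩
  · intro f hf
    by_cases h : f = s(x, y)
    · subst h
      rw [Function.update_self]
      split_ifs <;> simp
    · rw [Function.update_of_ne h]
      exact hσ f hf
  · intro f hf
    rw [Function.update_of_ne hf]
  · rw [Function.update_self]
    rcases hs with h | h
    · rw [if_pos h, h]
      exact hxy.symm
    · rw [if_neg (by rw [h]; exact hxy.symm), h]
      exact hxy
  · intro z
    rw [cnt_erase he _ z, cnt_erase he σ z]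
    rw [cnt_congr (E := E.erase s(x, y)) (σ := Function.update σ s(x, y) _) (τ := σ)]
    · rw [Function.update_self]
      push_cast
      rw [add_assoc]
      congr 1
      have key : ∀ a b : V, a ≠ b → (((if b = z then (1:ℕ) else 0 : ℕ)) : ZMod 2) =
          ((if a = z then (1:ℕ) else 0 : ℕ) : ZMod 2) + (ind z a + ind z b) := by
        intro a b hab
        unfold ind
        by_cases h1 : z = a
        · subst h1
          simp only [if_true, if_neg hab.symm, if_neg hab]
          decide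
        · by_cases h2 : z = b
          · subst h2
            simp only [if_true, if_neg (Ne.symm h1), if_neg h1]
            decide
          · simp only [if_neg h1, if_neg h2, if_neg (Ne.symm h1), if_neg (Ne.symm h2)]
            decide
      rcases hs with h | h
      · have h0 : (if σ s(x, y) = x then y else x) = y := if_pos h
        rw [h0, h]
        exact_mod_cast key x y hxy
      · have h0 : (if σ s(x, y) = x then y else x) = x := by
          rw [h]
          exact if_neg hxy.symm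
        rw [h0, h, add_comm (ind z x)]
        exact_mod_cast key y x hxy.symm
    · intro f hf
      rw [Function.update_of_ne (Finset.ne_of_mem_erase hf)]

theorem flip_walk {E : Finset (Sym2 V)} {r : V → V → Prop} {Pe : Sym2 V → Prop}
    (hr : ∀ a b, r a b → s(a, b) ∈ E ∧ a ≠ b ∧ Pe s(a, b)) {u w : V}
    (h : ReflTransGen r u w) {σ : Sym2 V → V} (hσ : Own E σ) :
    ∃ τ : Sym2 V → V, Own E τ ∧ (∀ f, ¬ Pe f → τ f = σ f) ∧
      ∀ z, (cnt E τ z : ZMod 2) = (cnt E σ z : ZMod 2) + (ind z u + ind z w) := by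
  induction h with
  | refl =>
    refine ⟨σ, hσ, fun _ _ => rfl, fun z => ?_⟩
    rw [ind_add_self, add_zero]
  | @tail b c _ hbc ih =>
    obtain ⟨τ, h1, h2, h3⟩ := ih
    obtain ⟨g1, g2, g3⟩ := hr b c hbc
    obtain ⟨ρ, k1, k2, _, k4⟩ := flip_one h1 g2 g1
    refine ⟨ρ, k1, ?_, ?_⟩
    · intro f hf
      rw [k2 f (by rintro rfl; exact hf g3), h2 f hf]
    · intro z
      rw [k4, h3]
      have := ind_add_self z b
      calc (cnt E σ z : ZMod 2) + (ind z u + ind z b) + (ind z b + ind z c)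
          = (cnt E σ z : ZMod 2) + (ind z u + ind z c) + (ind z b + ind z b) := by ring
        _ = _ := by rw [this, add_zero]

/-- reachability in the graph `E` -/
def Reach (E : Finset (Sym2 V)) : V → V → Prop := ReflTransGen (fun a b => s(a, b) ∈ E ∧ a ≠ b)

/-- `E` splits into two nonempty parts which do not touch -/
def Sep (E : Finset (Sym2 V)) : Prop :=
  ∃ X Y : Finset (Sym2 V), X ∪ Y = E ∧ X.Nonempty ∧ Y.Nonempty ∧ ∀ e ∈ X, ∀ f ∈ Y, ¬ Tch e f

theorem reach_of_not_sep {E : Finset (Sym2 V)} (hE : ¬ Sep E) {u v : V}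
    {e f : Sym2 V} (he : e ∈ E) (hu : u ∈ e) (hf : f ∈ E) (hv : v ∈ f) : Reach E u v := by
  classical
  have hstep : ∀ g ∈ E, ∀ z ∈ g, ∀ w ∈ g, Reach E u z → Reach E u w := by
    intro g hg z hz w hw h
    by_cases hzw : z = w
    · rw [← hzw]; exact h
    · have : g = s(z, w) := ((Sym2.mem_and_mem_iff hzw).1 ⟨hz, hw⟩)
      rw [this] at hg
      exact h.tail ⟨hg, hzw⟩
  by_contra hcon
  apply hE
  refine ⟨E.filter (fun g => ∃ z ∈ g, Reach E u z), E.filter (fun g => ¬ ∃ z ∈ g, Reach E u z),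
    Finset.filter_union_filter_not_eq _ _, ⟨e, ?_⟩, ⟨f, ?_⟩, ?_⟩
  · rw [Finset.mem_filter]
    exact ⟨he, u, hu, ReflTransGen.refl⟩
  · rw [Finset.mem_filter]
    refine ⟨hf, ?_⟩
    rintro ⟨z, hz, hr⟩
    exact hcon (hstep f hf z hz v hv hr)
  · intro g hg j hj ht
    rw [Finset.mem_filter] at hg hj
    obtain ⟨hgE, z, hz, hr⟩ := hg
    obtain ⟨w, hw1, hw2⟩ := ht
    exact hj.2 ⟨w, hw2, hstep g hgE z hz w hw1 hr⟩

theorem even_iff_cast (n : ℕ) : Even n ↔ (n : ZMod 2) = 0 :=
  (ZMod.natCast_eq_zero_iff_even).symm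

theorem exists_own {E : Finset (Sym2 V)} : ∃ σ : Sym2 V → V, Own E σ := by
  refine ⟨fun e => (Quot.out e).1, fun e _ => Sym2.out_fst_mem e⟩

/-- all parities can be made even except at one point -/
theorem even_except {E : Finset (Sym2 V)} (hE : ¬ Sep E) {v : V} {f : Sym2 V} (hf : f ∈ E)
    (hv : v ∈ f) : ∃ σ : Sym2 V → V, Own E σ ∧ ∀ z, z ≠ v → Even (cnt E σ z) := by
  classical
  have key : ∀ n : ℕ, ∀ σ : Sym2 V → V, Own E σ →
      ((E.image σ).filter (fun z => z ≠ v ∧ ¬ Even (cnt E σ z))).card = n →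
      ∃ σ : Sym2 V → V, Own E σ ∧ ∀ z, z ≠ v → Even (cnt E σ z) := by
    intro n
    induction n using Nat.strong_induction_on with
    | _ n ih =>
      intro σ hσ hn
      by_cases hbad : ∃ u ∈ E.image σ, u ≠ v ∧ ¬ Even (cnt E σ u)
      · obtain ⟨u, hu, huv, hodd⟩ := hbad
        obtain ⟨e, he, rfl⟩ := Finset.mem_image.1 hu
        have hreach := reach_of_not_sep hE he (hσ e he) hf hv
        obtain ⟨τ, h1, _, h3⟩ := flip_walk (E := E) (Pe := fun _ => True)
          (r := fun a b => s(a, b) ∈ E ∧ a ≠ b) (fun a b h => ⟨h.1, h.2, trivial⟩) hreach hσ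
        refine ih _ ?_ τ h1 rfl
        rw [← hn]
        apply Finset.card_lt_card
        have hne : Even (cnt E τ (σ e)) := by
          rw [even_iff_cast, h3]
          have : ¬ ((cnt E σ (σ e) : ZMod 2) = 0) := fun h0 => hodd ((even_iff_cast _).2 h0)
          have h4 : (cnt E σ (σ e) : ZMod 2) = 1 := by
            revert this
            generalize (cnt E σ (σ e) : ZMod 2) = a
            revert a
            decide
          rw [h4]
          simp only [ind, if_true, if_neg huv, add_zero]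
          decide
        rw [Finset.ssubset_iff_of_subset]
        · refine ⟨σ e, ?_, ?_⟩
          · rw [Finset.mem_filter]
            exact ⟨hu, huv, hodd⟩
          · rw [Finset.mem_filter]
            rintro ⟨_, _, h5⟩
            exact h5 hne
        · intro z hz
          rw [Finset.mem_filter] at hz ⊢
          obtain ⟨_, hzv, hzo⟩ := hz
          have hzu : z ≠ σ e := by
            rintro rfl
            exact hzo hne
          have h6 : ¬ Even (cnt E σ z) := by
            intro h7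
            apply hzo
            rw [even_iff_cast] at h7 ⊢
            rw [h3, h7]
            simp [ind, hzu, hzv]
          refine ⟨?_, hzv, h6⟩
          by_contra h8
          apply h6
          have : cnt E σ z = 0 := by
            unfold cnt
            rw [Finset.card_eq_zero, Finset.filter_eq_empty_iff]
            intro g hg h9
            exact h8 (Finset.mem_image.2 ⟨g, hg, h9⟩)
          rw [this]
          exact Even.zero
      · push Not at hbad
        refine ⟨σ, hσ, fun z hz => ?_⟩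
        by_cases h8 : z ∈ E.image σ
        · exact hbad z h8 hz
        · have : cnt E σ z = 0 := by
            unfold cnt
            rw [Finset.card_eq_zero, Finset.filter_eq_empty_iff]
            intro g hg h9
            exact h8 (Finset.mem_image.2 ⟨g, hg, h9⟩)
          rw [this]
          exact Even.zero
  obtain ⟨σ, hσ⟩ := exists_own (E := E)
  exact key _ σ hσ rfl

theorem col_own {E : Finset (Sym2 V)} {σ : Sym2 V → V} (hσ : Own E σ) :
    Col E (E.image σ).card :=
  col_of σ (le_refl _) (fun e he f hf hef => ⟨σ e, hσ e he, hef ▸ hσ f hf⟩)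

/-- the counting bound -/
theorem card_bound {E : Finset (Sym2 V)} {k : ℕ} (hk : ¬ Col E k) {v : V} {σ : Sym2 V → V}
    (hσ : Own E σ) (hev : ∀ z, z ≠ v → Even (cnt E σ z)) :
    2 * k + 2 ≤ E.card ∨ (2 * k + cnt E σ v ≤ E.card ∧ 1 ≤ cnt E σ v) := by
  classical
  have h1 : k < (E.image σ).card := by
    by_contra h
    push Not at h
    exact hk ((col_own hσ).mono (Finset.Subset.refl _) h)
  have h2 : E.card = ∑ z ∈ E.image σ, cnt E σ z := Finset.card_eq_sum_card_image σ E
  have h3 : ∀ z ∈ E.image σ, 1 ≤ cnt E σ z := by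
    intro z hz
    obtain ⟨e, he, rfl⟩ := Finset.mem_image.1 hz
    exact Finset.card_pos.2 ⟨e, Finset.mem_filter.2 ⟨he, rfl⟩⟩
  have h4 : ∀ z ∈ E.image σ, z ≠ v → 2 ≤ cnt E σ z := by
    intro z hz hzv
    obtain ⟨m, hm⟩ := hev z hzv
    have := h3 z hz
    omega
  by_cases hv : v ∈ E.image σ
  · right
    refine ⟨?_, h3 v hv⟩
    rw [h2, ← Finset.add_sum_erase _ _ hv]
    have h5 : ∑ z ∈ (E.image σ).erase v, 2 ≤ ∑ z ∈ (E.image σ).erase v, cnt E σ z :=
      Finset.sum_le_sum (fun z hz => h4 z (Finset.mem_of_mem_erase hz) (Finset.ne_of_mem_erase hz))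
    rw [Finset.sum_const, Finset.card_erase_of_mem hv, smul_eq_mul] at h5
    omega
  · left
    rw [h2]
    have h5 : ∑ z ∈ E.image σ, 2 ≤ ∑ z ∈ E.image σ, cnt E σ z :=
      Finset.sum_le_sum (fun z hz => h4 z hz (by rintro rfl; exact hv hz))
    rw [Finset.sum_const, smul_eq_mul] at h5
    omega

theorem card_ge {E : Finset (Sym2 V)} {k : ℕ} (hk : ¬ Col E k) (hE : ¬ Sep E) :
    2 * k + 1 ≤ E.card := by
  have hne : E.Nonempty := by
    rw [Finset.nonempty_iff_ne_empty]
    rintro rfl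
    exact hk ((col_zero_iff.2 rfl).mono (Finset.Subset.refl _) (Nat.zero_le _))
  obtain ⟨f, hf⟩ := hne
  obtain ⟨v, hv⟩ : ∃ v, v ∈ f := by
    induction f using Sym2.ind with
    | _ x y => exact ⟨x, by simp⟩
  obtain ⟨σ, h1, h2⟩ := even_except hE hf hv
  have := card_bound hk h1 h2
  omega

/-- in the extremal case no point is in three pairs -/
theorem deg_le_two {E : Finset (Sym2 V)} {k : ℕ} (h : Crit E k) (hE : ¬ Sep E)
    (hloop : ∀ e ∈ E, ¬ e.IsDiag) (hcard : E.card = 2 * k + 1) {v : V} {f₁ f₂ f₃ : Sym2 V}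
    (h12 : f₁ ≠ f₂) (h13 : f₁ ≠ f₃) (h23 : f₂ ≠ f₃) (hf₁ : f₁ ∈ E) (hf₂ : f₂ ∈ E) (hf₃ : f₃ ∈ E)
    (hv₁ : v ∈ f₁) (hv₂ : v ∈ f₂) (hv₃ : v ∈ f₃) : False := by
  classical
  have hone : ∀ σ : Sym2 V → V, Own E σ → (∀ z, z ≠ v → Even (cnt E σ z)) → cnt E σ v = 1 := by
    intro σ h1 h2
    have := card_bound h.ncol h1 h2
    omega
  obtain ⟨σ, hσ, hev⟩ := even_except hE hf₁ hv₁
  have hcnt := hone σ hσ hev
  obtain ⟨e₁, he₁⟩ := Finset.card_eq_one.1 hcnt
  have hmem : ∀ g ∈ E, σ g = v → g = e₁ := by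
    intro g hg hgv
    have : g ∈ E.filter (fun e => σ e = v) := Finset.mem_filter.2 ⟨hg, hgv⟩
    rw [he₁] at this
    exact Finset.mem_singleton.1 this
  have he₁' : e₁ ∈ E ∧ σ e₁ = v := by
    have : e₁ ∈ E.filter (fun e => σ e = v) := by rw [he₁]; simp
    exact Finset.mem_filter.1 this
  have hve₁ : v ∈ e₁ := he₁'.2 ▸ hσ e₁ he₁'.1
  -- reachability avoiding `v`
  let r : V → V → Prop := fun a b => s(a, b) ∈ E ∧ a ≠ b ∧ a ≠ v ∧ b ≠ v
  have hrsymm : Std.Symm r := by
    constructor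
    intro a b hab
    exact ⟨by rw [Sym2.eq_swap]; exact hab.1, hab.2.1.symm, hab.2.2.2, hab.2.2.1⟩
  have claimA : ∀ x y : V, s(v, x) ∈ E → s(v, y) ∈ E → s(v, x) ≠ e₁ → s(v, y) ≠ e₁ →
      s(v, x) ≠ s(v, y) → ¬ ReflTransGen r x y := by
    intro x y hx hy hx1 hy1 hxy hreach
    have hvx : v ≠ x := by
      intro h0
      exact hloop _ hx (by rw [h0]; simp)
    have hvy : v ≠ y := by
      intro h0
      exact hloop _ hy (by rw [h0]; simp)
    obtain ⟨σ₁, a1, a2, a3⟩ := flip_walk (E := E) (Pe := fun e => v ∉ e) (r := r)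
      (by
        intro a b hab
        refine ⟨hab.1, hab.2.1, ?_⟩
        rw [Sym2.mem_iff]
        rintro (h0 | h0)
        · exact hab.2.2.1 h0.symm
        · exact hab.2.2.2 h0.symm) hreach hσ
    obtain ⟨σ₂, b1, b2, b3, b4⟩ := flip_one a1 hvx hx
    obtain ⟨σ₃, c1, c2, c3, c4⟩ := flip_one b1 hvy hy
    have hcnt3 : ∀ z, (cnt E σ₃ z : ZMod 2) = (cnt E σ z : ZMod 2) := by
      intro z
      rw [c4, b4, a3]
      have k1 := ind_add_self z v
      have k2 := ind_add_self z x
      have k3 := ind_add_self z y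
      calc (cnt E σ z : ZMod 2) + (ind z x + ind z y) + (ind z v + ind z x) + (ind z v + ind z y)
          = (cnt E σ z : ZMod 2) + (ind z v + ind z v) + (ind z x + ind z x) +
            (ind z y + ind z y) := by ring
        _ = _ := by rw [k1, k2, k3, add_zero, add_zero, add_zero]
    have hev3 : ∀ z, z ≠ v → Even (cnt E σ₃ z) := by
      intro z hz
      rw [even_iff_cast, hcnt3, ← even_iff_cast]
      exact hev z hz
    have h3 := hone σ₃ c1 hev3
    obtain ⟨g, hg⟩ := Finset.card_eq_one.1 h3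
    have own3 : ∀ e ∈ E, σ₃ e = v → e = g := by
      intro e he hev
      have : e ∈ E.filter (fun e => σ₃ e = v) := Finset.mem_filter.2 ⟨he, hev⟩
      rw [hg] at this
      exact Finset.mem_singleton.1 this
    have hx3 : σ₃ s(v, x) = v := by
      rw [c2 _ hxy]
      have h5 : σ₁ s(v, x) = σ s(v, x) := a2 _ (by simp)
      have h6 : σ s(v, x) ≠ v := fun h0 => hx1 (hmem _ hx h0)
      have h7 : σ s(v, x) = x := by
        rcases Sym2.mem_iff.1 (hσ _ hx) with h0 | h0
        · exact absurd h0 h6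
        · exact h0
      rcases Sym2.mem_iff.1 (b1 _ hx) with h0 | h0
      · exact h0
      · rw [h5, h7] at b3
        exact absurd h0 b3
    have he3 : σ₃ e₁ = v := by
      rw [c2 _ hy1.symm, b2 _ hx1.symm, a2 _ (by simpa using hve₁)]
      exact he₁'.2
    have := own3 _ hx hx3
    have := own3 _ he₁'.1 he3
    exact hx1 (by rw [own3 _ hx hx3, own3 _ he₁'.1 he3])
  -- the end of `e₁`
  obtain ⟨x₁, rfl⟩ := hve₁
  have claimB : ∀ x y : V, s(v, x) ∈ E → s(v, y) ∈ E → s(v, x) ≠ s(v, x₁) →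
      s(v, x) ≠ s(v, y) → ReflTransGen r x x₁ := by
    intro x y hx hy hx1 hxy
    by_contra hnr
    have hvx : v ≠ x := by
      intro h0
      exact hloop _ hx (by rw [h0]; simp)
    have hclose : ∀ g ∈ E, v ∉ g → ∀ z ∈ g, ReflTransGen r x z → ∀ w ∈ g, ReflTransGen r x w := by
      intro g hg hvg z hz hrz w hw
      by_cases hzw : z = w
      · rw [← hzw]; exact hrz
      · have hgz : g = s(z, w) := (Sym2.mem_and_mem_iff hzw).1 ⟨hz, hw⟩
        subst hgz
        refine hrz.tail ⟨hg, hzw, ?_, ?_⟩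
        · rintro rfl; exact hvg hz
        · rintro rfl; exact hvg hw
    refine h.bridge hvx hx (E.filter (fun g => v ∉ g ∧ ∀ z ∈ g, ReflTransGen r x z))
      ((E.erase s(v, x)).filter (fun g => ¬ (v ∉ g ∧ ∀ z ∈ g, ReflTransGen r x z)))
      ?_ ?_ ?_ ?_ ?_ ?_ (e' := s(v, y)) ?_ (by simp)
    · ext g
      simp only [Finset.mem_insert, Finset.mem_union, Finset.mem_filter, Finset.mem_erase]
      constructor
      · intro hg
        by_cases h1 : g = s(v, x)
        · exact Or.inl h1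
        · right
          by_cases h2 : v ∉ g ∧ ∀ z ∈ g, ReflTransGen r x z
          · exact Or.inl ⟨hg, h2⟩
          · exact Or.inr ⟨⟨h1, hg⟩, h2⟩
      · rintro (h1 | ⟨h1, _⟩ | ⟨⟨_, h1⟩, _⟩)
        · rw [h1]; exact hx
        · exact h1
        · exact h1
    · rw [Finset.mem_filter]
      rintro ⟨_, h1, _⟩
      exact h1 (by simp)
    · rw [Finset.mem_filter, Finset.mem_erase]
      rintro ⟨⟨h1, _⟩, _⟩
      exact h1 rfl
    · intro f hf g hg ht
      rw [Finset.mem_filter] at hf hg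
      obtain ⟨z, hzf, hzg⟩ := ht
      obtain ⟨hfE, hvf, hfr⟩ := hf
      obtain ⟨hg1, hg2⟩ := hg
      rw [Finset.mem_erase] at hg1
      have hrz := hfr z hzf
      have hzv : z ≠ v := by rintro rfl; exact hvf hzf
      by_cases hvg : v ∈ g
      · have hgz : g = s(v, z) := (Sym2.mem_and_mem_iff hzv.symm).1 ⟨hvg, hzg⟩
        subst hgz
        by_cases h1 : s(v, z) = s(v, x₁)
        · have : z = x₁ := by
            rcases Sym2.eq_iff.1 h1 with ⟨_, h0⟩ | ⟨h0, h0'⟩
            · exact h0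
            · exact h0'.trans h0
          exact hnr (this ▸ hrz)
        · exact claimA x z hx hg1.2 hx1 h1 hg1.1.symm hrz
      · exact hg2 ⟨hvg, hclose g hg1.2 hvg z hzg hrz⟩
    · intro f hf
      exact (Finset.mem_filter.1 hf).2.1
    · intro g hg hxg
      rw [Finset.mem_filter, Finset.mem_erase] at hg
      obtain ⟨⟨hg1, hgE⟩, hg2⟩ := hg
      by_cases hvg : v ∈ g
      · exact hg1 ((Sym2.mem_and_mem_iff hvx).1 ⟨hvg, hxg⟩)
      · exact hg2 ⟨hvg, hclose g hgE hvg x hxg ReflTransGen.refl⟩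
    · rw [Finset.mem_filter, Finset.mem_erase]
      refine ⟨⟨hxy.symm, hy⟩, ?_⟩
      rintro ⟨h1, _⟩
      exact h1 (by simp)
  -- two of the three pairs are not `e₁`
  have h2 : ∃ x y : V, s(v, x) ∈ E ∧ s(v, y) ∈ E ∧ s(v, x) ≠ s(v, x₁) ∧ s(v, y) ≠ s(v, x₁) ∧
      s(v, x) ≠ s(v, y) := by
    obtain ⟨y₁, rfl⟩ := hv₁
    obtain ⟨y₂, rfl⟩ := hv₂
    obtain ⟨y₃, rfl⟩ := hv₃
    by_cases c1 : s(v, y₁) = s(v, x₁)
    · exact ⟨y₂, y₃, hf₂, hf₃, fun h0 => h12 (c1.trans h0.symm), fun h0 => h13 (c1.trans h0.symm),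
        h23⟩
    · by_cases c2 : s(v, y₂) = s(v, x₁)
      · exact ⟨y₁, y₃, hf₁, hf₃, c1, fun h0 => h23 (c2.trans h0.symm), h13⟩
      · exact ⟨y₁, y₂, hf₁, hf₂, c1, c2, h12⟩
  obtain ⟨x, y, hx, hy, hx1, hy1, hxy⟩ := h2
  have r1 := claimB x y hx hy hx1 hxy
  have r2 := claimB y x hy hx hy1 hxy.symm
  exact claimA x y hx hy hx1 hy1 hxy (r1.trans (Relation.ReflTransGen.stdSymm.symm _ _ r2))

end Pool.Agent.H81.LG
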