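import Pool.Agent.H81.LG.Match

/-!
# Matchings with the largest number of spans: exchange arguments
-/

set_option autoImplicit false
set_option linter.unusedSectionVars false
set_option linter.unusedVariables false

namespace Pool.Agent.H81.LG

open Finset

variable {V : Type} [DecidableEq V]

/-- the points of the members of `P` -/
def sp (P : Finset (Sym2 V)) : Finset V := P.biUnion Sym2.toFinset

theorem mem_sp {P : Finset (Sym2 V)} {v : V} : v ∈ sp P ↔ ∃ e ∈ P, v ∈ e := by
  unfold sp
  simp [Sym2.mem_toFinset]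

theorem mem_sp_pair {e f : Sym2 V} {v : V} : v ∈ sp {e, f} ↔ v ∈ e ∨ v ∈ f := by
  rw [mem_sp]
  simp

/-- a matching of `k + 1` pairs with the largest number of spans -/
structure Opt (E : Finset (Sym2 V)) (k : ℕ) (M : Finset (Finset (Sym2 V))) : Prop where
  mat : Mat E M
  card : M.card = k + 1
  opt : ∀ M', Mat E M' → M'.card = k + 1 → (M'.image sp).card ≤ (M.image sp).card
  loop : ∀ e ∈ E, ¬ e.IsDiag
  ncol : ¬ Col E k

theorem Crit.exists_opt {E : Finset (Sym2 V)} {k : ℕ} (h : Crit E k)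
    (hloop : ∀ e ∈ E, ¬ e.IsDiag) (hcard : 2 * k + 2 ≤ E.card) : ∃ M, Opt E k M := by
  classical
  obtain ⟨M₀, h1, h2⟩ := h.exists_mat hcard
  let F := (E.powerset.powerset).filter (fun M => Mat E M ∧ M.card = k + 1)
  have hF : ∀ M, Mat E M → M.card = k + 1 → M ∈ F := by
    intro M hM hMk
    rw [Finset.mem_filter, Finset.mem_powerset]
    exact ⟨fun P hP => Finset.mem_powerset.2 (hM.sub hP), hM, hMk⟩
  obtain ⟨M, hM, hmax⟩ := Finset.exists_max_image F (fun M => (M.image sp).card) ⟨M₀, hF M₀ h1 h2⟩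
  rw [Finset.mem_filter] at hM
  exact ⟨M, hM.2.1, hM.2.2, fun M' h3 h4 => hmax M' (hF M' h3 h4), hloop, h.ncol⟩

variable {E : Finset (Sym2 V)} {k : ℕ} {M : Finset (Finset (Sym2 V))}

theorem Opt.swap1 (hO : Opt E k M) {P P' : Finset (Sym2 V)} (hP : P ∈ M) (hP' : P' ∈ M)
    (hPP' : P ≠ P') (hsp : sp P = sp P') {e f : Sym2 V} (he : e ∈ E) (hf : f ∈ E)
    (hef : ¬ Tch e f) (heR : ∀ R ∈ M, R ≠ P → e ∉ R) (hfR : ∀ R ∈ M, R ≠ P → f ∉ R) :
    ∃ R ∈ M, R ≠ P ∧ sp R = sp {e, f} := by
  by_contra hcon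
  push Not at hcon
  have h0 : Mat E (M.erase P) := hO.mat.subset (Finset.erase_subset _ _)
  obtain ⟨h1, h2⟩ := h0.add he hf hef
    (fun R hR => heR R (Finset.mem_of_mem_erase hR) (Finset.ne_of_mem_erase hR))
    (fun R hR => hfR R (Finset.mem_of_mem_erase hR) (Finset.ne_of_mem_erase hR))
  have hpos : 0 < M.card := Finset.card_pos.2 ⟨_, hP⟩
  have h3 := hO.opt _ h1 (by
    rw [h2, Finset.card_erase_of_mem hP, hO.card]
    omega)
  have h4 : M.image sp ⊆ (M.erase P).image sp := by
    intro X hX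
    obtain ⟨R, hR, rfl⟩ := Finset.mem_image.1 hX
    by_cases h : R = P
    · rw [h, hsp]
      exact Finset.mem_image_of_mem _ (Finset.mem_erase.2 ⟨hPP'.symm, hP'⟩)
    · exact Finset.mem_image_of_mem _ (Finset.mem_erase.2 ⟨h, hR⟩)
  rw [Finset.image_union, Finset.image_singleton] at h3
  have h5 : sp {e, f} ∉ (M.erase P).image sp := by
    intro h
    obtain ⟨R, hR, hRs⟩ := Finset.mem_image.1 h
    exact hcon R (Finset.mem_of_mem_erase hR) (Finset.ne_of_mem_erase hR) hRs
  rw [Finset.card_union_of_disjoint (Finset.disjoint_singleton_right.2 h5),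
    Finset.card_singleton] at h3
  have := Finset.card_le_card h4
  omega

theorem Opt.swap2 (hO : Opt E k M) {P P' T : Finset (Sym2 V)} (hP : P ∈ M) (hP' : P' ∈ M)
    (hT : T ∈ M) (hPP' : P ≠ P') (hTP : T ≠ P) (hTP' : T ≠ P') (hsp : sp P = sp P')
    {e f g h : Sym2 V} (he : e ∈ P ∪ T) (hf : f ∈ P ∪ T) (hg : g ∈ P ∪ T) (hh : h ∈ P ∪ T)
    (hef : ¬ Tch e f) (hgh : ¬ Tch g h) (heg : e ≠ g) (heh : e ≠ h) (hfg : f ≠ g) (hfh : f ≠ h)
    (hs : sp {e, f} ≠ sp {g, h}) :
    ∃ R ∈ M, R ≠ P ∧ R ≠ T ∧ (sp R = sp {e, f} ∨ sp R = sp {g, h}) := by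
  by_contra hcon
  push Not at hcon
  have hfree : ∀ j ∈ P ∪ T, j ∈ E ∧ ∀ R ∈ (M.erase P).erase T, j ∉ R := by
    intro j hj
    rcases Finset.mem_union.1 hj with hj | hj
    · refine ⟨hO.mat.sub hP hj, ?_⟩
      intro R hR hjR
      have h1 := Finset.mem_of_mem_erase hR
      exact Finset.ne_of_mem_erase h1 (hO.mat.eq_of_mem (Finset.mem_of_mem_erase h1) hP hjR hj)
    · refine ⟨hO.mat.sub hT hj, ?_⟩
      intro R hR hjR
      have h1 := Finset.mem_of_mem_erase hR
      exact Finset.ne_of_mem_erase hR (hO.mat.eq_of_mem (Finset.mem_of_mem_erase h1) hT hjR hj)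
  have h0 : Mat E ((M.erase P).erase T) :=
    hO.mat.subset ((Finset.erase_subset _ _).trans (Finset.erase_subset _ _))
  obtain ⟨h1, h2⟩ := h0.add (hfree e he).1 (hfree f hf).1 hef (hfree e he).2 (hfree f hf).2
  obtain ⟨h3, h4⟩ := h1.add (hfree g hg).1 (hfree h hh).1 hgh
    (by
      intro R hR
      rcases Finset.mem_union.1 hR with hR | hR
      · exact (hfree g hg).2 R hR
      · rw [Finset.mem_singleton] at hR
        rw [hR]
        simp only [Finset.mem_insert, Finset.mem_singleton, not_or]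
        exact ⟨heg.symm, hfg.symm⟩)
    (by
      intro R hR
      rcases Finset.mem_union.1 hR with hR | hR
      · exact (hfree h hh).2 R hR
      · rw [Finset.mem_singleton] at hR
        rw [hR]
        simp only [Finset.mem_insert, Finset.mem_singleton, not_or]
        exact ⟨heh.symm, hfh.symm⟩)
  have hT' : T ∈ M.erase P := Finset.mem_erase.2 ⟨hTP, hT⟩
  have hpos : 0 < M.card := Finset.card_pos.2 ⟨_, hP⟩
  have hpos' : 0 < (M.erase P).card := Finset.card_pos.2 ⟨_, hT'⟩
  have h5 := hO.opt _ h3 (by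
    rw [h4, h2, Finset.card_erase_of_mem hT', Finset.card_erase_of_mem hP, hO.card]
    rw [Finset.card_erase_of_mem hP, hO.card] at hpos'
    omega)
  have h6 : M.image sp ⊆ ((M.erase P).erase T).image sp ∪ {sp T} := by
    intro X hX
    obtain ⟨R, hR, rfl⟩ := Finset.mem_image.1 hX
    by_cases h : R = T
    · rw [h]
      exact Finset.mem_union_right _ (by simp)
    · apply Finset.mem_union_left
      by_cases h' : R = P
      · rw [h', hsp]
        exact Finset.mem_image_of_mem _
          (Finset.mem_erase.2 ⟨hTP'.symm, Finset.mem_erase.2 ⟨hPP'.symm, hP'⟩⟩)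
      · exact Finset.mem_image_of_mem _ (Finset.mem_erase.2 ⟨h, Finset.mem_erase.2 ⟨h', hR⟩⟩)
  rw [Finset.image_union, Finset.image_union, Finset.image_singleton, Finset.image_singleton] at h5
  have h7 : sp {e, f} ∉ ((M.erase P).erase T).image sp := by
    intro h
    obtain ⟨R, hR, hRs⟩ := Finset.mem_image.1 h
    have hR' := Finset.mem_of_mem_erase hR
    exact (hcon R (Finset.mem_of_mem_erase hR') (Finset.ne_of_mem_erase hR')
      (Finset.ne_of_mem_erase hR)).1 hRs
  have h8 : sp {g, h} ∉ ((M.erase P).erase T).image sp ∪ {sp {e, f}} := by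
    intro h
    rcases Finset.mem_union.1 h with h | h
    · obtain ⟨R, hR, hRs⟩ := Finset.mem_image.1 h
      have hR' := Finset.mem_of_mem_erase hR
      exact (hcon R (Finset.mem_of_mem_erase hR') (Finset.ne_of_mem_erase hR')
        (Finset.ne_of_mem_erase hR)).2 hRs
    · rw [Finset.mem_singleton] at h
      exact hs h.symm
  rw [Finset.card_union_of_disjoint (Finset.disjoint_singleton_right.2 h8),
    Finset.card_union_of_disjoint (Finset.disjoint_singleton_right.2 h7),
    Finset.card_singleton, Finset.card_singleton] at h5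
  have h9 := (Finset.card_le_card h6).trans (Finset.card_union_le _ _)
  rw [Finset.card_singleton] at h9
  omega

/-- the three matchings on four points -/
theorem Opt.form4 (hO : Opt E k M) {R : Finset (Sym2 V)} (hR : R ∈ M) {p q r t : V}
    (hpq : p ≠ q) (hpr : p ≠ r) (hpt : p ≠ t) (hqr : q ≠ r) (hqt : q ≠ t) (hrt : r ≠ t)
    (hsp : sp R = sp {s(p, q), s(r, t)}) :
    R = {s(p, q), s(r, t)} ∨ R = {s(p, r), s(q, t)} ∨ R = {s(p, t), s(q, r)} := by
  have hmem : ∀ e ∈ R, ∀ v ∈ e, v = p ∨ v = q ∨ v = r ∨ v = t := by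
    intro e he v hv
    have h1 : v ∈ sp R := mem_sp.2 ⟨e, he, hv⟩
    rw [hsp, mem_sp_pair, Sym2.mem_iff, Sym2.mem_iff] at h1
    tauto
  have hp : p ∈ sp R := by
    rw [hsp, mem_sp_pair]
    simp
  obtain ⟨e, he, hpe⟩ := mem_sp.1 hp
  obtain ⟨f, hf, hef, rfl⟩ := hO.mat.form hR he
  have heE := hO.mat.sub hR he
  have hle := hO.loop e heE
  have hlf := hO.loop f hf
  obtain ⟨z, rfl⟩ := hpe
  induction f using Sym2.ind with
  | _ u w =>
    have hz := hmem s(p, z) (by simp) z (by simp)
    have hu := hmem s(u, w) (by simp) u (by simp)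
    have hw := hmem s(u, w) (by simp) w (by simp)
    have hzp : z ≠ p := by
      rintro rfl
      exact hle (by simp)
    have huw : u ≠ w := by
      rintro rfl
      exact hlf (by simp)
    have hup : u ≠ p := by
      rintro rfl
      exact hef ⟨u, by simp, by simp⟩
    have hwp : w ≠ p := by
      rintro rfl
      exact hef ⟨w, by simp, by simp⟩
    have huz : u ≠ z := by
      rintro rfl
      exact hef ⟨u, by simp, by simp⟩
    have hwz : w ≠ z := by
      rintro rfl
      exact hef ⟨w, by simp, by simp⟩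
    have hz' := hz.resolve_left hzp
    have hu' := hu.resolve_left hup
    have hw' := hw.resolve_left hwp
    clear hmem hsp hp hz hu hw
    rcases hz' with rfl | rfl | rfl <;> rcases hu' with rfl | rfl | rfl <;>
      rcases hw' with rfl | rfl | rfl
    all_goals first
      | exact absurd rfl huz
      | exact absurd rfl hwz
      | exact absurd rfl huw
      | exact Or.inl rfl
      | exact Or.inr (Or.inl rfl)
      | exact Or.inr (Or.inr rfl)
      | (left; rw [Sym2.eq_swap (a := w)]; done)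
      | (right; left; rw [Sym2.eq_swap (a := w)]; done)
      | (right; right; rw [Sym2.eq_swap (a := w)]; done)

end Pool.Agent.H81.LG
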